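import Mathlib

/-!
Abelian groups with fewer subgroups than the continuum and a divisible semigroup of endomorphisms.
-/

open Set Function

namespace Pool.Agent.W_68f289_h58

/-- a large iterate of a self map of a finite set is idempotent -/
lemma iterate_idem {W : Type*} [Finite W] (f : W → W) (x : W) :
    f^[(Nat.card W).factorial] (f^[(Nat.card W).factorial] x) = f^[(Nat.card W).factorial] x := by
  classical
  have : Fintype W := Fintype.ofFinite W
  set m := Nat.card W with hm
  have hcard : Fintype.card W < Fintype.card (Fin (m + 1)) := by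
    rw [Fintype.card_fin, hm, Nat.card_eq_fintype_card]; omega
  obtain ⟨i, j, hij, h⟩ := Fintype.exists_ne_map_eq_of_card_lt
    (fun k : Fin (m + 1) => f^[(k : ℕ)] x) hcard
  have key : ∀ i j : ℕ, i < j → j ≤ m → f^[i] x = f^[j] x →
      f^[m.factorial] (f^[m.factorial] x) = f^[m.factorial] x := by
    intro i j hij hj h
    obtain ⟨d, rfl⟩ : ∃ d, j = i + d := ⟨j - i, by omega⟩
    have hd : 0 < d := by omega
    have h1 : ∀ k, i ≤ k → f^[k + d] x = f^[k] x := by
      intro k hk
      obtain ⟨e, rfl⟩ : ∃ e, k = e + i := ⟨k - i, by omega⟩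
      rw [show e + i + d = e + (i + d) by ring, Function.iterate_add_apply, ← h,
        ← Function.iterate_add_apply]
    have h2 : ∀ q k, i ≤ k → f^[k + d * q] x = f^[k] x := by
      intro q
      induction q with
      | zero => intro k _; simp
      | succ q ih =>
        intro k hk
        rw [show k + d * (q + 1) = (k + d * q) + d by ring, h1 _ (by omega), ih k hk]
    obtain ⟨q, hq⟩ : d ∣ m.factorial := Nat.dvd_factorial hd (by omega)
    have h3 := h2 q m.factorial ((by omega : i ≤ m).trans (Nat.self_le_factorial m))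
    rw [← hq, Function.iterate_add_apply] at h3
    exact h3
  rcases lt_or_gt_of_ne (fun h => hij (Fin.ext h) : (i : ℕ) ≠ j) with h' | h'
  · exact key i j h' (by omega) h
  · exact key j i h' (by omega) h.symm

/-- the elements of a divisible semigroup which acts on a finite set are idempotent -/
lemma idem_of_finite {W : Type*} [Finite W] (X : ℝ → W → W)
    (hX : ∀ s t : ℝ, 0 < s → s ≤ 1 → 0 < t → t ≤ 1 → ∀ w, X (s * t) w = X s (X t w))
    {t : ℝ} (h0 : 0 < t) (h1 : t ≤ 1) (w : W) : X t (X t w) = X t w := by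
  set N := (Nat.card W).factorial with hN
  have hN0 : N ≠ 0 := Nat.factorial_ne_zero _
  set τ : ℝ := t ^ ((N : ℝ)⁻¹) with hτ
  have hτ0 : 0 < τ := Real.rpow_pos_of_pos h0 _
  have hτ1 : τ ≤ 1 := Real.rpow_le_one h0.le h1 (by positivity)
  have hτN : τ ^ N = t := Real.rpow_inv_natCast_pow h0.le hN0
  have h2 : ∀ k : ℕ, ∀ w, X (τ ^ (k + 1)) w = (X τ)^[k + 1] w := by
    intro k
    induction k with
    | zero => intro w; simp
    | succ k ih =>
      intro w
      rw [pow_succ, hX _ _ (pow_pos hτ0 _) (pow_le_one₀ hτ0.le hτ1) hτ0 hτ1, ih]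
      exact (Function.iterate_succ_apply _ _ _).symm
  obtain ⟨k, hk⟩ := Nat.exists_eq_succ_of_ne_zero hN0
  have h3 : ∀ w, X t w = (X τ)^[N] w := by
    intro w
    rw [← hτN, hk]
    exact h2 k w
  rw [h3, h3]
  exact iterate_idem (X τ) w

/-- types with fewer elements than the continuum -/
def Few (α : Type*) : Prop := IsEmpty (Set ℕ ↪ α)

lemma Few.of_inj {α β : Type*} (h : Few β) {f : α → β} (hf : Function.Injective f) : Few α :=
  ⟨fun g => h.false (g.trans ⟨f, hf⟩)⟩

lemma Few.of_countable (α : Type*) [Countable α] : Few α := by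
  refine ⟨fun g => ?_⟩
  have : Countable (Set ℕ) := g.injective.countable
  obtain ⟨f, hf⟩ := exists_surjective_nat (Set ℕ)
  exact Function.cantor_surjective f hf

lemma few_iff {α : Type} : Few α ↔ Cardinal.mk α < Cardinal.continuum := by
  have h1 : Cardinal.mk (Set ℕ) = Cardinal.continuum := by
    rw [Cardinal.mk_set, Cardinal.mk_nat, Cardinal.two_power_aleph0]
  rw [← not_le, ← h1, Cardinal.le_def, Few, not_nonempty_iff]

/-- a group with an infinite independent sequence has at least continuum many subgroups -/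
lemma not_few_of_seq {V : Type*} [AddCommGroup V] (v : ℕ → V)
    (h : ∀ (S : Set ℕ) (j : ℕ), j ∉ S → v j ∉ AddSubgroup.closure (v '' S)) :
    ¬ Few (AddSubgroup V) := by
  intro hc
  have hinj : Function.Injective fun S : Set ℕ => AddSubgroup.closure (v '' S) := by
    intro S S' e
    have e : AddSubgroup.closure (v '' S) = AddSubgroup.closure (v '' S') := e
    ext j
    constructor
    · intro hj
      by_contra hj'
      apply h S' j hj'
      rw [← e]
      exact AddSubgroup.subset_closure ⟨j, hj, rfl⟩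
    · intro hj
      by_contra hj'
      apply h S j hj'
      rw [e]
      exact AddSubgroup.subset_closure ⟨j, hj, rfl⟩
  exact hc.false ⟨_, hinj⟩

/-- a vector space over a finite field with few additive subgroups is finite -/
lemma finite_of_few_mod (k : Type*) {V : Type*} [Field k] [Finite k] [AddCommGroup V]
    [Module k V] (hc : Few (AddSubgroup V)) : Finite V := by
  obtain ⟨⟨ι, b⟩⟩ := Module.Free.exists_basis k V
  by_cases hi : Finite ι
  · have : Module.Finite k V := Module.Finite.of_basis b
    exact Module.finite_of_finite k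
  · exfalso
    rw [not_finite_iff_infinite] at hi
    set e := Infinite.natEmbedding ι with he
    refine not_few_of_seq (fun i => b (e i)) ?_ hc
    intro S j hj hmem
    have hli : LinearIndependent k fun i => b (e i) :=
      b.linearIndependent.comp e e.injective
    have h1 := hli.notMem_span_image (s := S) (x := j) hj
    apply h1
    have h2 : AddSubgroup.closure ((fun i => b (e i)) '' S) ≤
        (Submodule.span k ((fun i => b (e i)) '' S)).toAddSubgroup := by
      rw [AddSubgroup.closure_le]
      exact Submodule.subset_span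
    exact h2 hmem

/-- an elementary abelian group with few subgroups is finite -/
lemma finite_of_few {V : Type*} [AddCommGroup V] {p : ℕ} (hp : p.Prime)
    (hV : ∀ x : V, p • x = 0) (hc : Few (AddSubgroup V)) : Finite V := by
  have : Fact p.Prime := ⟨hp⟩
  let inst : Module (ZMod p) V := AddCommGroup.zmodModule hV
  exact finite_of_few_mod (ZMod p) hc

section main

variable {A : Type*} [AddCommGroup A]

lemma few_quot (P : AddSubgroup A) (hc : Few (AddSubgroup A)) :
    Few (AddSubgroup (A ⧸ P)) := by
  have h : Function.Injective (AddSubgroup.comap (QuotientAddGroup.mk' P)) :=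
    AddSubgroup.comap_injective (QuotientAddGroup.mk'_surjective P)
  exact hc.of_inj h

lemma few_sub (P : AddSubgroup A) (hc : Few (AddSubgroup A)) :
    Few (AddSubgroup P) := by
  have h : Function.Injective (AddSubgroup.map P.subtype) :=
    AddSubgroup.map_injective P.subtype_injective
  exact hc.of_inj h

lemma nsmul_quot (p : ℕ) (x : A ⧸ (nsmulAddMonoidHom (α := A) p).range) : p • x = 0 := by
  induction x using QuotientAddGroup.induction_on with
  | H x =>
    rw [← QuotientAddGroup.mk_nsmul, QuotientAddGroup.eq_zero_iff]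
    exact ⟨x, rfl⟩

/-- an action with a swindle acts trivially on finite quotients `A / p A`, so they are trivial -/
lemma div_of_finite {p : ℕ} [Finite (A ⧸ (nsmulAddMonoidHom (α := A) p).range)] (X : ℝ → A →+ A)
    (hX : ∀ s t : ℝ, 0 < s → s ≤ 1 → 0 < t → t ≤ 1 → ∀ a, X (s * t) a = X s (X t a))
    (hs : ∀ t : ℝ, 0 < t → t ≤ 1 → Function.Surjective (X t))
    (hsw : ∀ a : A, ∃ s t : ℝ, 0 < s ∧ s ≤ 1 ∧ 0 < t ∧ t ≤ 1 ∧ ∃ y, y = X s a + X t y) (a : A) :
    ∃ b, p • b = a := by
  set P : AddSubgroup A := (nsmulAddMonoidHom (α := A) p).range with hP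
  have hPX : ∀ t, P ≤ P.comap (X t) := by
    rintro t _ ⟨x, rfl⟩
    exact ⟨X t x, by simp⟩
  set Y : ℝ → A ⧸ P → A ⧸ P := fun t => QuotientAddGroup.map P P (X t) (hPX t) with hY
  have hY1 : ∀ t (x : A), Y t (x : A ⧸ P) = ((X t x : A) : A ⧸ P) := fun t x => rfl
  have hYm : ∀ s t : ℝ, 0 < s → s ≤ 1 → 0 < t → t ≤ 1 → ∀ w, Y (s * t) w = Y s (Y t w) := by
    intro s t a1 a2 a3 a4 w
    induction w using QuotientAddGroup.induction_on with
    | H x => rw [hY1, hY1, hY1, hX s t a1 a2 a3 a4]
  have hfix : ∀ t : ℝ, 0 < t → t ≤ 1 → ∀ w, Y t w = w := by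
    intro t a1 a2 w
    obtain ⟨x, hx⟩ : ∃ x : A, (x : A ⧸ P) = w := Quotient.exists_rep w
    obtain ⟨z, hz⟩ := hs t a1 a2 x
    have h1 := idem_of_finite Y hYm a1 a2 (z : A ⧸ P)
    rw [hY1, hz, hx] at h1
    exact h1
  obtain ⟨s, t, a1, a2, a3, a4, y, hy⟩ := hsw a
  have h1 : (y : A ⧸ P) = (a : A ⧸ P) + (y : A ⧸ P) := by
    conv_lhs => rw [hy]
    rw [QuotientAddGroup.mk_add, ← hY1, ← hY1, hfix s a1 a2, hfix t a3 a4]
  have h2 : (a : A ⧸ P) = 0 := by
    have := h1.symm
    rwa [add_eq_right] at this
  rw [QuotientAddGroup.eq_zero_iff] at h2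
  obtain ⟨b, hb⟩ := h2
  exact ⟨b, hb⟩

/-- an abelian group with fewer subgroups than the continuum has no action of the semigroup `(0, 1]`
by surjective endomorphisms with a swindle, unless it is trivial -/
theorem trivial_of_few (hc : Few (AddSubgroup A)) (X : ℝ → A →+ A)
    (hX : ∀ s t : ℝ, 0 < s → s ≤ 1 → 0 < t → t ≤ 1 → ∀ a, X (s * t) a = X s (X t a))
    (hs : ∀ t : ℝ, 0 < t → t ≤ 1 → Function.Surjective (X t))
    (hsw : ∀ a : A, ∃ s t : ℝ, 0 < s ∧ s ≤ 1 ∧ 0 < t ∧ t ≤ 1 ∧ ∃ y, y = X s a + X t y) (a : A) :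
    a = 0 := by
  -- divisibility
  have hdiv : ∀ p : ℕ, p.Prime → ∀ a : A, ∃ b, p • b = a := by
    intro p hp a
    have hpQ : ∀ x : A ⧸ (nsmulAddMonoidHom (α := A) p).range, p • x = 0 := nsmul_quot p
    have : Finite (A ⧸ (nsmulAddMonoidHom (α := A) p).range) :=
      finite_of_few hp hpQ (few_quot _ hc)
    exact div_of_finite X hX hs hsw a
  -- torsion
  have htor : ∀ a : A, ∃ N : ℕ, N ≠ 0 ∧ N • a = 0 := by
    intro a
    by_contra hcon
    push Not at hcon
    have hZ : ∀ k : ℤ, k ≠ 0 → k • a ≠ 0 := by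
      intro k hk h
      rcases Int.natAbs_eq k with h1 | h1
      · rw [h1, natCast_zsmul] at h
        exact hcon _ (Int.natAbs_ne_zero.2 hk) h
      · rw [h1, neg_smul, natCast_zsmul, neg_eq_zero] at h
        exact hcon _ (Int.natAbs_ne_zero.2 hk) h
    set q : ℕ → ℕ := Nat.nth Nat.Prime with hq
    have hqp : ∀ k, (q k).Prime := fun k => Nat.prime_nth_prime k
    have hqi : Function.Injective q := Nat.nth_injective Nat.infinite_setOfPred_prime
    choose b hb using fun k : ℕ => hdiv (q k) (hqp k) a
    set P : AddSubgroup A := AddSubgroup.zmultiples a with hP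
    refine not_few_of_seq (fun k => ((b k : A) : A ⧸ P)) ?_ (few_quot P hc)
    intro S j hj hmem
    have key : ∀ x ∈ AddSubgroup.closure ((fun k => ((b k : A) : A ⧸ P)) '' S),
        ∃ m : ℕ, Nat.Coprime m (q j) ∧ m • x = 0 := by
      intro x hx
      induction hx using AddSubgroup.closure_induction with
      | mem x hx =>
        obtain ⟨i, hi, rfl⟩ := hx
        refine ⟨q i, (Nat.coprime_primes (hqp i) (hqp j)).2 fun h => hj ?_, ?_⟩
        · rw [← hqi h]; exact hi
        · change q i • ((b i : A) : A ⧸ P) = 0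
          rw [← QuotientAddGroup.mk_nsmul, hb, QuotientAddGroup.eq_zero_iff]
          exact AddSubgroup.mem_zmultiples a
      | zero => exact ⟨1, Nat.coprime_one_left _, by simp⟩
      | add x y _ _ hx hy =>
        obtain ⟨m, hm, hmx⟩ := hx
        obtain ⟨m', hm', hmy⟩ := hy
        refine ⟨m * m', hm.mul_left hm', ?_⟩
        rw [nsmul_add, mul_comm m m', mul_nsmul', hmx, nsmul_zero, zero_add, mul_comm m' m,
          mul_nsmul', hmy, nsmul_zero]
      | neg x _ hx =>
        obtain ⟨m, hm, hmx⟩ := hx
        exact ⟨m, hm, by rw [smul_neg, hmx, neg_zero]⟩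
    obtain ⟨m, hm, hmx⟩ := key _ hmem
    have hmx : m • ((b j : A) : A ⧸ P) = 0 := hmx
    have hqx : q j • ((b j : A) : A ⧸ P) = 0 := by
      rw [← QuotientAddGroup.mk_nsmul, hb, QuotientAddGroup.eq_zero_iff]
      exact AddSubgroup.mem_zmultiples a
    have h0 : ((b j : A) : A ⧸ P) = 0 := by
      have h1 : (addOrderOf ((b j : A) : A ⧸ P)) ∣ Nat.gcd m (q j) :=
        Nat.dvd_gcd (addOrderOf_dvd_of_nsmul_eq_zero hmx) (addOrderOf_dvd_of_nsmul_eq_zero hqx)
      rw [hm] at h1
      exact AddMonoid.addOrderOf_eq_one_iff.1 (Nat.dvd_one.1 h1)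
    rw [QuotientAddGroup.eq_zero_iff, AddSubgroup.mem_zmultiples_iff] at h0
    obtain ⟨k, hk⟩ := h0
    have h2 : ((q j : ℤ) * k - 1) • a = 0 := by
      rw [sub_smul, mul_smul, hk, one_smul, natCast_zsmul, hb, sub_self]
    refine hZ _ ?_ h2
    intro h3
    have h4 : (q j : ℤ) ∣ 1 := ⟨k, by linarith⟩
    have h5 : q j ∣ 1 := by exact_mod_cast h4
    exact (hqp j).one_lt.ne' (Nat.dvd_one.1 h5)
  -- finitely many elements of each exponent
  have hfin : ∀ m : ℕ, m ≠ 0 → {x : A | m • x = 0}.Finite := by
    intro m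
    induction m using Nat.recOnMul with
    | zero => intro h; exact absurd rfl h
    | one =>
      intro _
      refine (Set.finite_singleton (0 : A)).subset ?_
      intro x hx
      have hx : 1 • x = 0 := hx
      rw [one_smul] at hx
      exact hx
    | prime p hp =>
      intro _
      set P : AddSubgroup A := (nsmulAddMonoidHom (α := A) p).ker with hP
      have h1 : ∀ x : P, p • x = 0 := by
        rintro ⟨x, hx⟩
        apply Subtype.ext
        exact hx
      have : Finite P := finite_of_few hp h1 (few_sub P hc)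
      have h2 : {x : A | p • x = 0} = (P : Set A) := by
        ext x
        exact Iff.rfl
      rw [h2]
      exact Set.toFinite _
    | mul m m' hm hm' =>
      intro h
      have h1 : m ≠ 0 := fun h' => h (by rw [h', zero_mul])
      have h2 : m' ≠ 0 := fun h' => h (by rw [h', mul_zero])
      have h3 : {x : A | (m * m') • x = 0} ⊆
          ⋃ y ∈ {y : A | m' • y = 0}, {x : A | m • x = y} := by
        intro x hx
        have hx : (m * m') • x = 0 := hx
        refine Set.mem_biUnion (x := m • x) ?_ rfl
        change m' • (m • x) = 0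
        rw [← mul_nsmul]
        exact hx
      refine ((hm' h2).biUnion fun y _ => ?_).subset h3
      by_cases he : ∃ z : A, m • z = y
      · obtain ⟨z, hz⟩ := he
        refine ((hm h1).image fun x => x + z).subset ?_
        intro x hx
        have hx : m • x = y := hx
        refine ⟨x - z, ?_, sub_add_cancel _ _⟩
        change m • (x - z) = 0
        rw [nsmul_sub, hx, hz, sub_self]
      · convert Set.finite_empty
        ext x
        simp only [Set.mem_ofPred_eq, Set.mem_empty_iff_false, iff_false]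
        exact fun h => he ⟨x, h⟩
  -- the action is trivial
  have hfix : ∀ t : ℝ, 0 < t → t ≤ 1 → ∀ a, X t a = a := by
    intro t a1 a2 a
    obtain ⟨b, hb⟩ := hs t a1 a2 a
    obtain ⟨N, hN, hNb⟩ := htor b
    have : Finite {x : A // N • x = 0} := (hfin N hN).to_subtype
    set Y : ℝ → {x : A // N • x = 0} → {x : A // N • x = 0} := fun t x =>
      ⟨X t x.1, by rw [← map_nsmul, x.2, map_zero]⟩ with hY
    have h1 := idem_of_finite Y (fun s t b1 b2 b3 b4 w => Subtype.ext (hX s t b1 b2 b3 b4 w.1))
      a1 a2 ⟨b, hNb⟩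
    have h2 : X t (X t b) = X t b := congrArg Subtype.val h1
    rwa [hb] at h2
  obtain ⟨s, t, a1, a2, a3, a4, y, hy⟩ := hsw a
  rw [hfix s a1 a2, hfix t a3 a4] at hy
  have := hy.symm
  rwa [add_eq_right] at this

/-- increasing sequences of proper subgroups with union `A` -/
def Chn (B : ℕ → AddSubgroup A) : Prop := Monotone B ∧ (∀ k, B k ≠ ⊤) ∧ ∀ a, ∃ k, a ∈ B k

/-- the chain pulled back along a surjective homomorphism -/
lemma Chn.comap {V : Type*} [AddCommGroup V] {B : ℕ → AddSubgroup V} (h : Chn B) {f : A →+ V}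
    (hf : Function.Surjective f) : Chn fun k => (B k).comap f := by
  refine ⟨fun k l hkl => AddSubgroup.comap_mono (h.1 hkl), fun k hk => h.2.1 k ?_, fun a => ?_⟩
  · have hk : (B k).comap f = ⊤ := hk
    rw [eq_top_iff]
    intro v _
    obtain ⟨a, rfl⟩ := hf v
    have : a ∈ (B k).comap f := by rw [hk]; trivial
    exact this
  · exact h.2.2 (f a)

lemma chain_of_mod (k : Type*) {V : Type*} [Field k] [Finite k] [AddCommGroup V]
    [Module k V] (hV : Infinite V) : ∃ B : ℕ → AddSubgroup V, Chn B := by
  obtain ⟨⟨ι, b⟩⟩ := Module.Free.exists_basis k V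
  have hi : Infinite ι := by
    rw [← not_finite_iff_infinite]
    intro hi
    have : Module.Finite k V := Module.Finite.of_basis b
    have : Finite V := Module.finite_of_finite k
    exact not_finite V
  set e := Infinite.natEmbedding ι with he
  refine ⟨fun m =>
    { carrier := {v | ∀ j, m ≤ j → b.repr v (e j) = 0}
      zero_mem' := fun j _ => by simp
      add_mem' := fun {x y} hx hy j hj => by
        have h1 : b.repr x (e j) = 0 := hx j hj
        have h2 : b.repr y (e j) = 0 := hy j hj
        simp [h1, h2]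
      neg_mem' := fun {x} hx j hj => by
        have h1 : b.repr x (e j) = 0 := hx j hj
        simp [h1] }, fun m m' hm v hv j hj => hv j (hm.trans hj), fun m hm => ?_, fun v => ?_⟩
  · have h1 : b (e m) ∈ (⊤ : AddSubgroup V) := trivial
    rw [← hm] at h1
    have h2 : b.repr (b (e m)) (e m) = 0 := h1 m le_rfl
    simp at h2
  · have h1 : {j : ℕ | b.repr v (e j) ≠ 0}.Finite := by
      have h2 : {i : ι | b.repr v i ≠ 0}.Finite := by
        refine (b.repr v).support.finite_toSet.subset fun i hi => ?_
        exact Finsupp.mem_support_iff.2 hi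
      exact h2.preimage e.injective.injOn
    obtain ⟨m, hm⟩ := h1.bddAbove
    refine ⟨m + 1, fun j hj => ?_⟩
    by_contra hcon
    have := hm hcon
    omega

/-- a nontrivial abelian group with an action of the semigroup `(0, 1]` by surjective endomorphisms
with a swindle is the union of an increasing sequence of proper subgroups -/
theorem exists_chain (X : ℝ → A →+ A)
    (hX : ∀ s t : ℝ, 0 < s → s ≤ 1 → 0 < t → t ≤ 1 → ∀ a, X (s * t) a = X s (X t a))
    (hs : ∀ t : ℝ, 0 < t → t ≤ 1 → Function.Surjective (X t))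
    (hsw : ∀ a : A, ∃ s t : ℝ, 0 < s ∧ s ≤ 1 ∧ 0 < t ∧ t ≤ 1 ∧ ∃ y, y = X s a + X t y) {a₀ : A}
    (ha₀ : a₀ ≠ 0) : ∃ B : ℕ → AddSubgroup A, Chn B := by
  by_cases hdiv : ∀ p : ℕ, p.Prime → ∀ a : A, ∃ b, p • b = a
  · -- divisible groups
    have hdiv' : ∀ m : ℕ, m ≠ 0 → ∀ a : A, ∃ b, m • b = a := by
      intro m
      induction m using Nat.recOnMul with
      | zero => intro h; exact absurd rfl h
      | one => intro _ a; exact ⟨a, one_smul _ a⟩
      | prime p hp => intro _; exact hdiv p hp
      | mul m m' hm hm' =>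
        intro h a
        obtain ⟨b, hb⟩ := hm (fun h' => h (by rw [h', zero_mul])) a
        obtain ⟨c, hc⟩ := hm' (fun h' => h (by rw [h', mul_zero])) b
        exact ⟨c, by rw [mul_nsmul', hc, hb]⟩
    by_cases htor : ∀ a : A, ∃ N : ℕ, N ≠ 0 ∧ N • a = 0
    · refine ⟨fun k => (nsmulAddMonoidHom (α := A) k.factorial).ker, fun k l hkl a ha => ?_,
        fun k hk => ?_, fun a => ?_⟩
      · have ha : k.factorial • a = 0 := ha
        obtain ⟨m, hm⟩ := Nat.factorial_dvd_factorial hkl
        change l.factorial • a = 0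
        rw [hm, mul_comm, mul_nsmul', ha, nsmul_zero]
      · obtain ⟨b, hb⟩ := hdiv' k.factorial (Nat.factorial_ne_zero k) a₀
        have h1 : b ∈ (⊤ : AddSubgroup A) := trivial
        rw [← hk] at h1
        have h1 : k.factorial • b = 0 := h1
        exact ha₀ (by rw [← hb, h1])
      · obtain ⟨N, hN, hNa⟩ := htor a
        refine ⟨N, ?_⟩
        change N.factorial • a = 0
        obtain ⟨m, hm⟩ := Nat.dvd_factorial (Nat.pos_of_ne_zero hN) le_rfl
        rw [hm, mul_comm, mul_nsmul', hNa, nsmul_zero]
    · push Not at htor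
      obtain ⟨a, ha⟩ := htor
      have hinj : Function.Injective (zmultiplesHom A a) := by
        rw [injective_iff_map_eq_zero]
        intro k hk
        have hk : k • a = 0 := hk
        by_contra hk0
        rcases Int.natAbs_eq k with h1 | h1
        · rw [h1, natCast_zsmul] at hk
          exact ha _ (Int.natAbs_ne_zero.2 hk0) hk
        · rw [h1, neg_smul, natCast_zsmul, neg_eq_zero] at hk
          exact ha _ (Int.natAbs_ne_zero.2 hk0) hk
      have hb : Module.Baer ℤ ℚ := Module.Baer.of_divisible ℚ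
      obtain ⟨f, hf⟩ := hb.extension_property_addMonoidHom (M := ℤ) (N := A)
        (zmultiplesHom A a) hinj (Int.castAddHom ℚ)
      have hfa : f a = 1 := by
        have := DFunLike.congr_fun hf 1
        simpa using this
      refine ⟨fun k => (((Int.castAddHom ℚ).range.comap
        (AddMonoidHom.mulLeft (k.factorial : ℚ))).comap f), fun k l hkl x hx => ?_,
        fun k hk => ?_, fun x => ?_⟩
      · obtain ⟨m, hm⟩ := hx
        have hm : (m : ℚ) = k.factorial * f x := hm
        obtain ⟨d, hd⟩ := Nat.factorial_dvd_factorial hkl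
        refine ⟨m * d, ?_⟩
        change ((m * d : ℤ) : ℚ) = l.factorial * f x
        rw [hd]
        push_cast
        rw [hm]
        ring
      · obtain ⟨q, hq1, hq⟩ := Nat.exists_infinite_primes (k + 1)
        obtain ⟨b, hb⟩ := hdiv q hq a
        have h1 : b ∈ (⊤ : AddSubgroup A) := trivial
        rw [← hk] at h1
        obtain ⟨m, hm⟩ := h1
        have hm : (m : ℚ) = k.factorial * f b := hm
        have h2 : (q : ℚ) * f b = 1 := by
          rw [← nsmul_eq_mul, ← map_nsmul, hb, hfa]
        have h3 : (q : ℚ) * m = k.factorial := by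
          rw [hm, mul_left_comm, h2, mul_one]
        have h4 : (q : ℤ) ∣ (k.factorial : ℤ) := ⟨m, by exact_mod_cast h3.symm⟩
        have h5 : q ∣ k.factorial := by exact_mod_cast h4
        have h6 := (hq.dvd_factorial).1 h5
        omega
      · refine ⟨(f x).den, ?_⟩
        obtain ⟨d, hd⟩ := Nat.dvd_factorial (f x).den_pos le_rfl
        refine ⟨d * (f x).num, ?_⟩
        change ((d * (f x).num : ℤ) : ℚ) = (f x).den.factorial * f x
        rw [hd]
        push_cast
        have h1 : ((f x).den : ℚ) * f x = (f x).num := by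
          rw [mul_comm]
          exact Rat.mul_den_eq_num (f x)
        rw [← h1]
        ring
  · push Not at hdiv
    obtain ⟨p, hp, a, ha⟩ := hdiv
    have hfin : ¬ Finite (A ⧸ (nsmulAddMonoidHom (α := A) p).range) := by
      intro hfin
      obtain ⟨b, hb⟩ := div_of_finite (p := p) X hX hs hsw a
      exact ha b hb
    have : Fact p.Prime := ⟨hp⟩
    let inst : Module (ZMod p) (A ⧸ (nsmulAddMonoidHom (α := A) p).range) :=
      AddCommGroup.zmodModule (nsmul_quot p)
    obtain ⟨B, hB⟩ := chain_of_mod (ZMod p) (not_finite_iff_infinite.1 hfin)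
    exact ⟨_, hB.comap (QuotientAddGroup.mk'_surjective _)⟩

end main

end Pool.Agent.W_68f289_h58
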