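import Pool.Agent.W_68f289_h58.Sh
import Pool.Agent.W_MP_68f289_gt.Extra

/-!
Groups of homeomorphisms of the ball with the action of the homotheties.
-/

open Set Metric Topology Filter commutatorElement
open scoped NNReal ContDiff

namespace Pool.Agent.W_68f289_h58

open Pool.Agent.W_MP_68f289_gt Pool.Agent.W_68f289_h35 Pool.Agent.W_68f289_h51

variable {n : ℕ} {L : Subgroup (E n ≃ₜ E n)}

/-- the properties used in the proof -/
structure Gd (L : Subgroup (E n ≃ₜ E n)) : Prop where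
  big : Big L
  le : L ≤ HamBar n
  st : ∀ s : ℝ, 0 < s → s ≤ 1 → ∀ g ∈ L, cj s g ∈ L
  up : ∀ g ∈ L, ∃ r : ℝ, 0 < r ∧ r < 1 ∧ cj r⁻¹ g ∈ L
  core : ∀ s r : ℝ, 0 < s → s < r → r ≤ 1 → ∃ δ > 0, ∀ e ∈ L, (∀ x, dist (e x) x < δ) →
    ∀ h ∈ L, cj r⁻¹ (e * cj s h * e⁻¹) ∈ L
  sw : ∀ g ∈ L, ∃ s t : ℝ, 0 < s ∧ s ≤ 1 ∧ 0 < t ∧ t ≤ 1 ∧ ∃ y ∈ L, ∃ c ∈ L,
    y = c * cj s g * c⁻¹ * cj t y

open Classical in
/-- the endomorphisms -/
noncomputable def sg (h : Gd L) (s : ℝ) : Ty L →* Ty L :=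
  if hs : 0 < s ∧ s ≤ 1 then
    { toFun := fun g => ⟨cj s g, h.st s hs.1 hs.2 g g.2⟩
      map_one' := Subtype.ext (cj_one s)
      map_mul' := fun g k => Subtype.ext (by
        change cj s ((g : E n ≃ₜ E n) * (k : E n ≃ₜ E n)) = cj s g * cj s k
        exact cj_mul s _ _) }
  else 1

lemma sg_coe (h : Gd L) {s : ℝ} (h0 : 0 < s) (h1 : s ≤ 1) (g : Ty L) :
    (sg h s g : E n ≃ₜ E n) = cj s g := by
  unfold sg
  rw [dif_pos ⟨h0, h1⟩]
  rfl

lemma mem_range_sg (h : Gd L) {r : ℝ} (h0 : 0 < r) (h1 : r ≤ 1) {g : Ty L}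
    (hg : cj r⁻¹ (g : E n ≃ₜ E n) ∈ L) : g ∈ (sg h r).range := by
  refine ⟨⟨_, hg⟩, Subtype.ext ?_⟩
  rw [sg_coe h h0 h1]
  exact cj_cj_inv h0.ne' _

/-- the semigroup of endomorphisms -/
noncomputable def semi (h : Gd L) : Semi (Ty L) where
  σ := sg h
  mul s t s0 s1 t0 t1 g := Subtype.ext (by
    rw [sg_coe h (mul_pos s0 t0) (mul_le_one₀ s1 t0.le t1), sg_coe h s0 s1, sg_coe h t0 t1,
      cj_cj s0.ne' t0.ne'])
  ex g := by
    obtain ⟨r, r0, r1, hr⟩ := h.up g g.2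
    exact ⟨r, r0, r1, mem_range_sg h r0 r1.le hr⟩
  sw g := by
    obtain ⟨s, t, s0, s1, t0, t1, y, hy, c, hc, e⟩ := h.sw g g.2
    refine ⟨s, t, s0, s1, t0, t1, ⟨y, hy⟩, ⟨c, hc⟩, Subtype.ext ?_⟩
    change y = c * (sg h s g : E n ≃ₜ E n) * c⁻¹ * (sg h t ⟨y, hy⟩ : E n ≃ₜ E n)
    rw [sg_coe h s0 s1, sg_coe h t0 t1]
    exact e

/-- conjugates of homeomorphisms of a small ball, modulo the smallest normal subgroup -/
theorem sandwich (hn : 1 ≤ n) (h : Gd L) {s r : ℝ} (hs : 0 < s) (hsr : s < r) (hr : r ≤ 1) :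
    (semi h).N s ≤ (sg h r).range ⊔ Mo L (Bl n) := by
  have S := sysL hn h.big
  have hMn := S.Mo_normal
  obtain ⟨δ, hδ, hcore⟩ := h.core s r hs hsr hr
  unfold Semi.N Subgroup.normalClosure
  rw [Subgroup.closure_le]
  intro x hx
  obtain ⟨_, ⟨k, rfl⟩, hx⟩ := Group.mem_conjugatesOfSet_iff.1 hx
  obtain ⟨g, rfl⟩ := isConj_iff.1 hx
  change g * (sg h s k) * g⁻¹ ∈ (sg h r).range ⊔ Mo L (Bl n)
  obtain ⟨u, hu, hud⟩ := exists_isHam_near (h.le g.2) hδ
  set u' : Ty L := ⟨u, h.big.ham u hu⟩ with hu'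
  set e : Ty L := g * u'⁻¹ with he
  have hed : ∀ x, dist ((e : E n ≃ₜ E n) x) x < δ := by
    intro x
    have h1 := hud (u.symm x)
    rw [Homeomorph.apply_symm_apply, dist_comm] at h1
    exact h1
  have e1 : g * sg h s k * g⁻¹ = (e * ⁅u', sg h s k⁆ * e⁻¹) * (e * sg h s k * e⁻¹) := by
    rw [he, commutatorElement_def]
    group
  rw [e1]
  refine mul_mem (Subgroup.mem_sup_right ?_) (Subgroup.mem_sup_left ?_)
  · refine hMn.conj_mem _ ?_ e
    exact Subgroup.commutator_mem_commutator (isHam_memL h.big hu) (Subgroup.mem_top _)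
  · refine mem_range_sg h (hs.trans hsr) hr ?_
    have h2 := hcore e e.2 hed k k.2
    have e2 : ((e * sg h s k * e⁻¹ : Ty L) : E n ≃ₜ E n) =
        (e : E n ≃ₜ E n) * cj s (k : E n ≃ₜ E n) * (e : E n ≃ₜ E n)⁻¹ := by
      change (e : E n ≃ₜ E n) * (sg h s k : E n ≃ₜ E n) * (e : E n ≃ₜ E n)⁻¹ = _
      rw [sg_coe h hs (hsr.trans_le hr).le]
    rw [e2]
    exact h2

/-- fragmentation -/
theorem frag_of_top (hn : 1 ≤ n) (h : Gd L)
    (hN : ∀ s : ℝ, 0 < s → s ≤ 1 → (semi h).N s = ⊤) : FrL L = ⊤ := by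
  have S := sysL hn h.big
  have hFn := S.Fr_normal
  have hMF : Mo L (Bl n) ≤ FrL L := by
    have h1 : Mo L (Bl n) ≤ Fr L (E n) := by
      rw [S.Mo_eq]
      exact Subgroup.commutator_le_left _ _
    exact h1
  rw [eq_top_iff]
  unfold FrL
  refine le_iInf fun ε => le_iInf fun hε => ?_
  set r : ℝ := min ε 1 with hr
  have r0 : 0 < r := lt_min hε one_pos
  have r1 : r ≤ 1 := min_le_right _ _
  rw [← hN (r / 2) (by positivity) (by linarith)]
  refine (sandwich hn h (half_pos r0) (by linarith) r1).trans (sup_le ?_ ?_)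
  · rintro _ ⟨k, rfl⟩
    refine Subgroup.subset_closure ⟨0, fun x hx => ?_⟩
    rw [sg_coe h r0 r1]
    obtain ⟨K, hK, hKB, hoff⟩ := h.big.supp k k.2
    refine cj_off r0 hoff (A' := ball 0 ε) (fun x hx => ?_) hx
    rw [mem_ball_zero_iff, norm_smul, Real.norm_eq_abs, abs_of_pos r0]
    have h2 : ‖x‖ < 1 := lt_of_le_of_lt (norm_le_en x) (mem_Bl.1 (hKB hx))
    calc r * ‖x‖ < r * 1 := by gcongr
      _ ≤ ε := by rw [mul_one]; exact min_le_left _ _
  · refine hMF.trans ?_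
    unfold FrL
    exact (iInf_le _ ε).trans (iInf_le _ hε)

/-- simple groups -/
lemma simple_normal {Γ : Type*} [Group Γ] (h : IsSimpleGroup Γ) :
    (∃ T : Set Γ, T.Finite ∧ Subgroup.normalClosure T = ⊤) ∧ Few {N : Subgroup Γ // N.Normal} := by
  constructor
  · obtain ⟨g, hg⟩ := exists_ne (1 : Γ)
    refine ⟨{g}, Set.finite_singleton g, ?_⟩
    have h1 : (Subgroup.normalClosure {g}).Normal := Subgroup.normalClosure_normal
    rcases h.eq_bot_or_eq_top_of_normal _ h1 with h2 | h2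
    · exfalso
      have h3 : g ∈ Subgroup.normalClosure {g} := Subgroup.subset_normalClosure rfl
      rw [h2] at h3
      exact hg h3
    · exact h2
  · have h1 : Function.Injective fun N : {N : Subgroup Γ // N.Normal} => (N.1 = ⊤ : Prop) := by
      intro N N' e
      have e : (N.1 = ⊤) = (N'.1 = ⊤) := e
      apply Subtype.ext
      rcases h.eq_bot_or_eq_top_of_normal _ N.2 with h2 | h2
      · rcases h.eq_bot_or_eq_top_of_normal _ N'.2 with h3 | h3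
        · rw [h2, h3]
        · rw [h3]
          exact e.mpr h3
      · rw [h2]
        exact (e.mp h2).symm
    exact (Few.of_countable Prop).of_inj h1

/-- the theorem for a good group -/
theorem simple_tfae (hn : 1 ≤ n) (h : Gd L) :
    [IsSimpleGroup (Ty L),
      ∃ T : Set (Ty L), T.Finite ∧ Subgroup.normalClosure T = ⊤,
      ¬ ∃ N : ℕ → Subgroup (Ty L), Monotone N ∧ (∀ k, (N k).Normal ∧ N k ≠ ⊤) ∧
        ∀ g, ∃ k, g ∈ N k,
      Cardinal.mk {N : Subgroup (Ty L) // N.Normal} < Cardinal.continuum].TFAE := by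
  have S := sysL hn h.big
  have key : ((¬ ∃ B : ℕ → Subgroup (Ty L), Semi.Chn' B) ∨
      Few {N : Subgroup (Ty L) // N.Normal}) → IsSimpleGroup (Ty L) := by
    intro h1
    obtain ⟨h2, h3⟩ := Semi.abs (semi h) h1
    exact S.simple_iff_perfect_and_frag.2 ⟨h2, frag_of_top hn h h3⟩
  rw [← few_iff]
  tfae_have 1 → 2 := fun h1 => (simple_normal h1).1
  tfae_have 2 → 3 := by
    rintro ⟨T, hT, hc⟩ ⟨B, hB⟩
    exact Semi.not_chain_of_finite hT hc hB
  tfae_have 3 → 1 := fun h1 => key (Or.inl h1)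
  tfae_have 1 → 4 := fun h1 => (simple_normal h1).2
  tfae_have 4 → 1 := fun h1 => key (Or.inr h1)
  tfae_finish

end Pool.Agent.W_68f289_h58
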