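import Pool.Agent.W_68f289_h58.Ag

/-!
Groups with a semigroup of endomorphisms which exhausts the group, and a swindle: if such a group is
not the union of an increasing sequence of proper normal subgroups, or has fewer normal subgroups than
the continuum, then it is perfect and the normal closure of the image of each of the endomorphisms.
-/

open Set Function

namespace Pool.Agent.W_68f289_h58

/-- a semigroup of endomorphisms of a group -/
structure Semi (Γ : Type*) [Group Γ] where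
  σ : ℝ → Γ →* Γ
  mul : ∀ s t : ℝ, 0 < s → s ≤ 1 → 0 < t → t ≤ 1 → ∀ g, σ (s * t) g = σ s (σ t g)
  ex : ∀ g : Γ, ∃ r : ℝ, 0 < r ∧ r < 1 ∧ g ∈ (σ r).range
  sw : ∀ g : Γ, ∃ s t : ℝ, 0 < s ∧ s ≤ 1 ∧ 0 < t ∧ t ≤ 1 ∧ ∃ y c : Γ,
    y = c * σ s g * c⁻¹ * σ t y

variable {Γ : Type*} [Group Γ]

namespace Semi

variable (S : Semi Γ)

/-- the normal closure of the image -/
def N (r : ℝ) : Subgroup Γ := Subgroup.normalClosure ((S.σ r).range : Set Γ)

lemma normal_N (r : ℝ) : (S.N r).Normal := Subgroup.normalClosure_normal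

variable {S}

lemma range_mono {s r : ℝ} (h0 : 0 < s) (h : s ≤ r) (h1 : r ≤ 1) :
    (S.σ s).range ≤ (S.σ r).range := by
  rintro _ ⟨g, rfl⟩
  have hr : 0 < r := h0.trans_le h
  have e : r * (s / r) = s := by field_simp
  refine ⟨S.σ (s / r) g, ?_⟩
  rw [← S.mul r (s / r) hr h1 (by positivity) ((div_le_one hr).2 h), e]

lemma N_mono {s r : ℝ} (h0 : 0 < s) (h : s ≤ r) (h1 : r ≤ 1) : S.N s ≤ S.N r :=
  Subgroup.normalClosure_mono (range_mono h0 h h1)

lemma mem_N {r : ℝ} (g : Γ) : S.σ r g ∈ S.N r := Subgroup.subset_normalClosure ⟨g, rfl⟩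

lemma σ_mem_N {t r : ℝ} (t0 : 0 < t) (t1 : t ≤ 1) (r0 : 0 < r) (r1 : r ≤ 1) {g : Γ}
    (hg : g ∈ S.N r) : S.σ t g ∈ S.N (t * r) := by
  have hn := S.normal_N (t * r)
  have h1 : S.N r ≤ (S.N (t * r)).comap (S.σ t) := by
    have : ((S.N (t * r)).comap (S.σ t)).Normal := hn.comap _
    refine Subgroup.normalClosure_le_normal ?_
    rintro _ ⟨x, rfl⟩
    change S.σ t (S.σ r x) ∈ S.N (t * r)
    rw [← S.mul t r t0 t1 r0 r1]
    exact mem_N x
  exact h1 hg

/-- scaling of equalities -/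
lemma N_scale {t s r : ℝ} (t0 : 0 < t) (t1 : t ≤ 1) (s0 : 0 < s) (s1 : s ≤ 1) (r0 : 0 < r)
    (r1 : r ≤ 1) (h : S.N s = S.N r) : S.N (t * s) = S.N (t * r) := by
  have key : ∀ {s r : ℝ}, 0 < s → s ≤ 1 → 0 < r → r ≤ 1 → S.N s = S.N r →
      S.N (t * s) ≤ S.N (t * r) := by
    intro s r s0 s1 r0 r1 h
    have := S.normal_N (t * r)
    refine Subgroup.normalClosure_le_normal ?_
    rintro _ ⟨x, rfl⟩
    rw [S.mul t s t0 t1 s0 s1]
    refine σ_mem_N t0 t1 r0 r1 ?_
    rw [← h]
    exact mem_N x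
  exact le_antisymm (key s0 s1 r0 r1 h) (key r0 r1 s0 s1 h.symm)

lemma N_pow {r q : ℝ} (q0 : 0 < q) (q1 : q ≤ 1) (r0 : 0 < r) (r1 : r ≤ 1)
    (h : S.N (q * r) = S.N r) (k : ℕ) : S.N (q ^ k * r) = S.N r := by
  induction k with
  | zero => rw [pow_zero, one_mul]
  | succ k ih =>
    have hk0 : 0 < q ^ k := pow_pos q0 k
    have hk1 : q ^ k ≤ 1 := pow_le_one₀ q0.le q1
    rw [pow_succ, mul_assoc, N_scale hk0 hk1 (mul_pos q0 r0) (mul_le_one₀ q1 r0.le r1) r0 r1 h, ih]

/-- if two of the subgroups are equal, the smaller ones are equal to them -/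
lemma N_const {s r u : ℝ} (s0 : 0 < s) (hsr : s < r) (r1 : r ≤ 1) (h : S.N s = S.N r)
    (u0 : 0 < u) (hur : u ≤ r) : S.N u = S.N r := by
  have r0 : 0 < r := s0.trans hsr
  set q := s / r with hq
  have q0 : 0 < q := by positivity
  have q1 : q < 1 := (div_lt_one r0).2 hsr
  have e : q * r = s := by rw [hq]; field_simp
  have h1 := fun k => N_pow (S := S) q0 q1.le r0 r1 (by rw [e]; exact h) k
  obtain ⟨k, hk⟩ := exists_pow_lt_of_lt_one u0 q1
  have hk' : q ^ k * r ≤ u := by
    have : q ^ k * r ≤ q ^ k * 1 := mul_le_mul_of_nonneg_left r1 (pow_pos q0 k).le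
    linarith
  refine le_antisymm (N_mono u0 hur r1) ?_
  rw [← h1 k]
  exact N_mono (mul_pos (pow_pos q0 k) r0) hk' (hur.trans r1)

lemma N_top_of_one {r s : ℝ} (r0 : 0 < r) (r1 : r < 1) (h : S.N r = ⊤) (s0 : 0 < s)
    (s1 : s ≤ 1) : S.N s = ⊤ := by
  have h1 : S.N 1 = ⊤ := by
    rw [eq_top_iff, ← h]
    exact N_mono r0 r1.le le_rfl
  rw [N_const r0 r1 le_rfl (by rw [h, h1]) s0 s1, h1]

lemma N_top_of_few (h : Few {N : Subgroup Γ // N.Normal}) {s : ℝ}
    (s0 : 0 < s) (s1 : s ≤ 1) : S.N s = ⊤ := by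
  -- not all values are different
  have h1 : ∀ r₀ : ℝ, 0 < r₀ → r₀ < 1 → ∃ s r : ℝ, r₀ < s ∧ s < r ∧ r < 1 ∧ S.N s = S.N r := by
    intro r₀ h0 h1
    by_contra hcon
    push Not at hcon
    have hinj : InjOn S.N (Ioo r₀ 1) := by
      intro a ha b hb e
      by_contra hab
      rcases lt_or_gt_of_ne hab with h' | h'
      · exact hcon a b ha.1 h' hb.2 e
      · exact hcon b a hb.1 h' ha.2 e.symm
    have hc : Few (Ioo r₀ 1) := h.of_inj
      (f := fun a : Ioo r₀ 1 => (⟨S.N a, S.normal_N a⟩ : {N : Subgroup Γ // N.Normal}))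
      fun a b e => Subtype.ext (hinj a.2 b.2 (congrArg Subtype.val e))
    rw [few_iff] at hc
    rw [Cardinal.mk_Ioo_real h1] at hc
    exact lt_irrefl _ hc
  have h2 : ∀ g : Γ, g ∈ S.N (1 / 2) := by
    intro g
    obtain ⟨r₀, a0, a1, hg⟩ := S.ex g
    obtain ⟨s, r, b1, b2, b3, b4⟩ := h1 (max r₀ (1 / 2)) (lt_max_of_lt_left a0)
      (max_lt a1 (by norm_num))
    have c1 : r₀ < s := (le_max_left _ _).trans_lt b1
    have c2 : 1 / 2 < s := (le_max_right _ _).trans_lt b1
    rw [N_const (by linarith) b2 b3.le b4 (by norm_num) (by linarith)]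
    exact N_mono a0 (by linarith) b3.le (Subgroup.subset_normalClosure hg)
  exact N_top_of_one (r := 1 / 2) (by norm_num) (by norm_num) (by rw [eq_top_iff]; exact fun g _ => h2 g)
    s0 s1

/-! ### Abelianization -/

/-- increasing sequences of proper normal subgroups with union `Γ` -/
def Chn' (B : ℕ → Subgroup Γ) : Prop :=
  Monotone B ∧ (∀ k, (B k).Normal ∧ B k ≠ ⊤) ∧ ∀ g, ∃ k, g ∈ B k

/-- the action on the abelianization -/
noncomputable def act (S : Semi Γ) (t : ℝ) :
    Additive (Abelianization Γ) →+ Additive (Abelianization Γ) :=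
  MonoidHom.toAdditive (Abelianization.map (S.σ t))

lemma act_of (t : ℝ) (g : Γ) : act S t (Additive.ofMul (Abelianization.of g)) =
    Additive.ofMul (Abelianization.of (S.σ t g)) := rfl

lemma exists_of (a : Additive (Abelianization Γ)) :
    ∃ g : Γ, Additive.ofMul (Abelianization.of g) = a :=
  QuotientGroup.mk_surjective (s := commutator Γ) a.toMul

lemma act_mul (s t : ℝ) (s0 : 0 < s) (s1 : s ≤ 1) (t0 : 0 < t) (t1 : t ≤ 1)
    (a : Additive (Abelianization Γ)) : act S (s * t) a = act S s (act S t a) := by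
  obtain ⟨g, rfl⟩ := exists_of a
  rw [act_of, act_of, act_of, S.mul s t s0 s1 t0 t1]

lemma act_surj (h : ∀ s : ℝ, 0 < s → s ≤ 1 → S.N s = ⊤) (t : ℝ) (t0 : 0 < t) (t1 : t ≤ 1) :
    Function.Surjective (act S t) := by
  intro a
  obtain ⟨g, rfl⟩ := exists_of a
  have h2 : S.N t ≤ ((Abelianization.map (S.σ t)).range).comap Abelianization.of := by
    refine Subgroup.normalClosure_le_normal ?_
    rintro _ ⟨x, rfl⟩
    exact ⟨Abelianization.of x, rfl⟩
  rw [h t t0 t1] at h2
  obtain ⟨b, hb⟩ := h2 (Subgroup.mem_top g)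
  exact ⟨Additive.ofMul b, congrArg Additive.ofMul hb⟩

lemma act_sw (a : Additive (Abelianization Γ)) : ∃ s t : ℝ, 0 < s ∧ s ≤ 1 ∧ 0 < t ∧ t ≤ 1 ∧
    ∃ y, y = act S s a + act S t y := by
  obtain ⟨g, rfl⟩ := exists_of a
  obtain ⟨s, t, s0, s1, t0, t1, y, c, hy⟩ := S.sw g
  refine ⟨s, t, s0, s1, t0, t1, Additive.ofMul (Abelianization.of y), ?_⟩
  rw [act_of, act_of, ← ofMul_mul]
  congr 1
  conv_lhs => rw [hy]
  rw [map_mul, map_mul, map_mul, map_inv, mul_comm (Abelianization.of c),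
    mul_inv_cancel_right]

lemma few_of_normal (h : Few {N : Subgroup Γ // N.Normal}) :
    Few (AddSubgroup (Additive (Abelianization Γ))) := by
  have h2 : Function.Injective fun P : Subgroup (Abelianization Γ) =>
      (⟨P.comap Abelianization.of, inferInstanceAs (P.comap _).Normal⟩ :
        {N : Subgroup Γ // N.Normal}) := by
    intro P Q e
    have e := congrArg Subtype.val e
    exact Subgroup.comap_injective (QuotientGroup.mk_surjective (s := commutator Γ)) e
  have h3 : Few (Subgroup (Abelianization Γ)) := h.of_inj h2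
  exact h3.of_inj (Subgroup.toAddSubgroup (G := Abelianization Γ)).symm.injective

/-- perfect groups -/
lemma perfect_of (h : ∀ a : Additive (Abelianization Γ), a = 0) : commutator Γ = ⊤ := by
  rw [eq_top_iff]
  intro g _
  have h3 : (Abelianization.of g) = 1 := h (Additive.ofMul (Abelianization.of g))
  exact (QuotientGroup.eq_one_iff g).1 h3

/-- a chain in the abelianization -/
lemma chain_of_ab {B : ℕ → AddSubgroup (Additive (Abelianization Γ))} (h : Chn B) :
    ∃ B' : ℕ → Subgroup Γ, Chn' B' := by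
  refine ⟨fun k => (AddSubgroup.toSubgroup (B k)).comap Abelianization.of, fun k l hkl g hg => ?_,
    fun k => ⟨inferInstanceAs (Subgroup.comap _ _).Normal, fun hk => h.2.1 k ?_⟩, fun g => ?_⟩
  · exact h.1 hkl hg
  · rw [eq_top_iff]
    intro a _
    obtain ⟨g, rfl⟩ := exists_of a
    have h1 : g ∈ (⊤ : Subgroup Γ) := trivial
    rw [← hk] at h1
    exact h1
  · exact h.2.2 (Additive.ofMul (Abelianization.of g))

/-- the normal closures of finite sets -/
lemma not_chain_of_finite {T : Set Γ} (hT : T.Finite) (h : Subgroup.normalClosure T = ⊤)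
    {B : ℕ → Subgroup Γ} (hB : Chn' B) : False := by
  have h1 : ∃ k, T ⊆ B k := by
    clear h
    induction T, hT using Set.Finite.induction_on with
    | empty => exact ⟨0, empty_subset _⟩
    | @insert g T _ _ ih =>
      obtain ⟨k, hk⟩ := ih
      obtain ⟨l, hl⟩ := hB.2.2 g
      refine ⟨max k l, ?_⟩
      rw [insert_subset_iff]
      exact ⟨hB.1 (le_max_right k l) hl, hk.trans (hB.1 (le_max_left k l))⟩
  obtain ⟨k, hk⟩ := h1
  have := (hB.2.1 k).1
  apply (hB.2.1 k).2
  rw [eq_top_iff, ← h]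
  exact Subgroup.normalClosure_le_normal hk

/-- the abstract theorem -/
theorem abs (S : Semi Γ) (h : (¬ ∃ B : ℕ → Subgroup Γ, Chn' B) ∨
    Few {N : Subgroup Γ // N.Normal}) :
    commutator Γ = ⊤ ∧ ∀ s : ℝ, 0 < s → s ≤ 1 → S.N s = ⊤ := by
  have h1 : ∀ s : ℝ, 0 < s → s ≤ 1 → S.N s = ⊤ := by
    rcases h with h | h
    · by_contra hcon
      push Not at hcon
      obtain ⟨s, s0, s1, hs⟩ := hcon
      have h2 : ∀ r : ℝ, 0 < r → r < 1 → S.N r ≠ ⊤ := fun r r0 r1 hr =>
        hs (N_top_of_one r0 r1 hr s0 s1)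
      have h3 : ∀ k : ℕ, (1 : ℝ) / (k + 2) ≤ 1 / 2 := by
        intro k
        apply one_div_le_one_div_of_le (by norm_num)
        have : (0 : ℝ) ≤ k := Nat.cast_nonneg k
        linarith
      have h4 : ∀ k : ℕ, (0 : ℝ) < 1 / (k + 2) := fun k => by positivity
      refine h ⟨fun k => S.N (1 - 1 / ((k : ℝ) + 2)), fun k l hkl => ?_, fun k => ⟨S.normal_N _,
        h2 _ (by linarith [h3 k]) (by linarith [h4 k])⟩, fun g => ?_⟩
      · have h5 : (1 : ℝ) / (l + 2) ≤ 1 / (k + 2) := by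
          apply one_div_le_one_div_of_le (by positivity)
          have : (k : ℝ) ≤ l := by exact_mod_cast hkl
          linarith
        exact N_mono (by linarith [h3 k]) (by linarith) (by linarith [h4 l])
      · obtain ⟨r, r0, r1, hg⟩ := S.ex g
        obtain ⟨k, hk⟩ := exists_nat_gt (1 / (1 - r))
        refine ⟨k, N_mono r0 ?_ (by linarith [h4 k]) (Subgroup.subset_normalClosure hg)⟩
        have h5 : 0 < 1 - r := by linarith
        rw [div_lt_iff₀ h5] at hk
        have h6 : 1 / ((k : ℝ) + 2) ≤ 1 - r := by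
          rw [div_le_iff₀ (by positivity)]
          nlinarith
        linarith
    · exact fun s s0 s1 => N_top_of_few h s0 s1
  refine ⟨perfect_of ?_, h1⟩
  rcases h with h | h
  · intro a
    by_contra ha
    obtain ⟨B, hB⟩ := exists_chain (act S) act_mul (act_surj h1) act_sw ha
    exact h (chain_of_ab hB)
  · exact trivial_of_few (few_of_normal h) (act S) act_mul (act_surj h1) act_sw

end Semi

end Pool.Agent.W_68f289_h58
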