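import Pool.Agent.W_68f289_t6.ActZ
import Pool.Agent.W_68f289_t6.Pres
import Pool.Agent.W_68f289_h35m.Sf
import Pool.Agent.W_MP_68f289_gt.Gn

/-!
A Hamiltonian diffeomorphism of the ball which is supported in a smaller closed ball is a Hamiltonian
diffeomorphism of each larger ball.
-/

open Set Metric Topology MeasureTheory
open scoped NNReal ContDiff

namespace Pool.Agent.W_68f289_h58

open Pool.Agent.W_MP_68f289_gt Pool.Agent.W_68f289_t6
open Pool.Agent.W_68f289_h35 (HIso.contDiff HIso.inv HIso.inv_contDiff HIso.apply_inv HIso.inv_apply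
  HIso.homeo)

variable {n : ℕ}

/-- the increments of the action -/
lemma Act_incr {H : ℝ → E n → ℝ} {ψ : ℝ → E n → E n} (h : HIso n H ψ) :
    ∃ C : ℝ, 0 ≤ C ∧ ∀ x y, |Act H ψ y - Act H ψ x -
      1 / 2 * (Om (ψ 1 x) (ψ 1 y - ψ 1 x) - Om x (y - x))| ≤ C * ‖y - x‖ ^ 2 := by
  obtain ⟨K, hK, hKB, h0⟩ := h.supp
  have hA : Adm n H K := ⟨h.smooth, hK, hKB, h0⟩
  obtain ⟨C₁, hC₁, hT⟩ := taylor h.smooth hK h0
  obtain ⟨C₂, hL⟩ := exists_lip h
  have hXc : Continuous (fun p : ℝ × E n => XH (H p.1) p.2) := hA.XH_smooth.continuous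
  have hψc : ∀ x, Continuous (fun t => ψ t x) := fun x =>
    continuous_iff_continuousAt.mpr fun t => (h.der t x).continuousAt
  have hXψ : ∀ x, Continuous (fun t => XH (H t) (ψ t x)) := fun x =>
    hXc.comp (continuous_id.prodMk (hψc x))
  have haψ : ∀ x, Continuous (fun t => W_68f289_t6.act H t (ψ t x)) := fun x =>
    (act_cont h).comp (continuous_id.prodMk (hψc x))
  refine ⟨(C₁ + n * C₂) * (C₂ : ℝ) ^ 2, by positivity, fun x y => ?_⟩
  set A : ℝ → ℝ := fun t => Om (ψ t x) (ψ t y - ψ t x) with hAdef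
  set A' : ℝ → ℝ := fun t => Om (XH (H t) (ψ t x)) (ψ t y - ψ t x) +
    Om (ψ t x) (XH (H t) (ψ t y) - XH (H t) (ψ t x)) with hA'def
  have hder : ∀ t, HasDerivAt A (A' t) t := fun t =>
    Om_deriv (h.der t x) ((h.der t y).sub (h.der t x))
  have hA'c : Continuous A' := by
    have e1 : Continuous (fun t => Om (XH (H t) (ψ t x)) (ψ t y - ψ t x)) :=
      Om_cont.comp ((hXψ x).prodMk ((hψc y).sub (hψc x)))
    have e2 : Continuous (fun t => Om (ψ t x) (XH (H t) (ψ t y) - XH (H t) (ψ t x))) :=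
      Om_cont.comp ((hψc x).prodMk ((hXψ y).sub (hXψ x)))
    exact e1.add e2
  have hint : ∫ t in (0 : ℝ)..1, A' t = Om (ψ 1 x) (ψ 1 y - ψ 1 x) - Om x (y - x) := by
    rw [intervalIntegral.integral_eq_sub_of_hasDerivAt (f := A) (fun t _ => hder t)
      (hA'c.intervalIntegrable _ _)]
    simp only [hAdef]
    rw [h.zero, h.zero]
  -- the pointwise identity
  have hid : ∀ t, W_68f289_t6.act H t (ψ t y) - W_68f289_t6.act H t (ψ t x) - 1 / 2 * A' t =
      (H t (ψ t x + (ψ t y - ψ t x)) - H t (ψ t x) -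
        fderiv ℝ (H t) (ψ t x) (ψ t y - ψ t x)) +
      1 / 2 * Om (ψ t y - ψ t x) (XH (H t) (ψ t y) - XH (H t) (ψ t x)) := by
    intro t
    rw [Om_XH]
    simp only [hA'def, W_68f289_t6.act]
    rw [show ψ t x + (ψ t y - ψ t x) = ψ t y by abel]
    simp only [Om_sub_left, Om_sub_right]
    have e1 := Om_anti (XH (H t) (ψ t x)) (ψ t y)
    have e2 := Om_anti (XH (H t) (ψ t x)) (ψ t x)
    rw [e1, e2]
    ring
  have hbd : ∀ t ∈ Icc (0 : ℝ) 1, ‖W_68f289_t6.act H t (ψ t y) - W_68f289_t6.act H t (ψ t x) -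
      1 / 2 * A' t‖ ≤ (C₁ + n * C₂) * (C₂ : ℝ) ^ 2 * ‖y - x‖ ^ 2 := by
    intro t ht
    rw [hid t]
    obtain ⟨l1, l2, -⟩ := hL t ht
    have hδ : ‖ψ t y - ψ t x‖ ≤ C₂ * ‖y - x‖ := by
      have := l1.dist_le_mul y x
      rwa [dist_eq_norm, dist_eq_norm] at this
    have hX : ‖XH (H t) (ψ t y) - XH (H t) (ψ t x)‖ ≤ C₂ * ‖ψ t y - ψ t x‖ := by
      have := l2.dist_le_mul (ψ t y) (ψ t x)
      rwa [dist_eq_norm, dist_eq_norm] at this
    have hδ0 : 0 ≤ ‖ψ t y - ψ t x‖ := norm_nonneg _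
    have hδ2 : ‖ψ t y - ψ t x‖ ^ 2 ≤ (C₂ : ℝ) ^ 2 * ‖y - x‖ ^ 2 := by
      rw [← mul_pow]
      exact pow_le_pow_left₀ hδ0 hδ 2
    have h1 := hT t ht (ψ t x) (ψ t y - ψ t x)
    have h2 := Om_bound (ψ t y - ψ t x) (XH (H t) (ψ t y) - XH (H t) (ψ t x))
    have h3 : ‖1 / 2 * Om (ψ t y - ψ t x) (XH (H t) (ψ t y) - XH (H t) (ψ t x))‖ ≤
        n * (C₂ * ‖ψ t y - ψ t x‖ ^ 2) := by
      rw [norm_mul, Real.norm_eq_abs (Om _ _)]
      have e : ‖(1 / 2 : ℝ)‖ = 1 / 2 := by norm_num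
      rw [e]
      have h4 : ‖ψ t y - ψ t x‖ * ‖XH (H t) (ψ t y) - XH (H t) (ψ t x)‖ ≤
          ‖ψ t y - ψ t x‖ * (C₂ * ‖ψ t y - ψ t x‖) := mul_le_mul_of_nonneg_left hX hδ0
      have hn : (0 : ℝ) ≤ n := Nat.cast_nonneg n
      calc 1 / 2 * |Om (ψ t y - ψ t x) (XH (H t) (ψ t y) - XH (H t) (ψ t x))|
          ≤ 1 / 2 * (2 * n * (‖ψ t y - ψ t x‖ * ‖XH (H t) (ψ t y) - XH (H t) (ψ t x)‖)) :=
            mul_le_mul_of_nonneg_left h2 (by norm_num)
        _ = n * (‖ψ t y - ψ t x‖ * ‖XH (H t) (ψ t y) - XH (H t) (ψ t x)‖) := by ring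
        _ ≤ n * (‖ψ t y - ψ t x‖ * (C₂ * ‖ψ t y - ψ t x‖)) := mul_le_mul_of_nonneg_left h4 hn
        _ = n * (C₂ * ‖ψ t y - ψ t x‖ ^ 2) := by ring
    calc _ ≤ C₁ * ‖ψ t y - ψ t x‖ ^ 2 + n * (C₂ * ‖ψ t y - ψ t x‖ ^ 2) :=
          (norm_add_le _ _).trans (add_le_add h1 h3)
      _ = (C₁ + n * C₂) * ‖ψ t y - ψ t x‖ ^ 2 := by ring
      _ ≤ (C₁ + n * C₂) * ((C₂ : ℝ) ^ 2 * ‖y - x‖ ^ 2) :=
          mul_le_mul_of_nonneg_left hδ2 (by positivity)
      _ = _ := by ring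
  have heq : Act H ψ y - Act H ψ x -
      1 / 2 * (Om (ψ 1 x) (ψ 1 y - ψ 1 x) - Om x (y - x)) =
      ∫ t in (0 : ℝ)..1, (W_68f289_t6.act H t (ψ t y) - W_68f289_t6.act H t (ψ t x) -
        1 / 2 * A' t) := by
    have i1 := (haψ y).intervalIntegrable (μ := volume) 0 1
    have i2 := (haψ x).intervalIntegrable (μ := volume) 0 1
    have i3 : IntervalIntegrable (fun t => 1 / 2 * A' t) volume 0 1 :=
      (continuous_const.mul hA'c).intervalIntegrable _ _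
    rw [intervalIntegral.integral_sub (i1.sub i2) i3, intervalIntegral.integral_sub i1 i2,
      intervalIntegral.integral_const_mul, hint]
    rfl
  rw [heq, ← Real.norm_eq_abs]
  have := intervalIntegral.norm_integral_le_of_norm_le_const (a := (0 : ℝ)) (b := 1)
    (f := fun t => W_68f289_t6.act H t (ψ t y) - W_68f289_t6.act H t (ψ t x) - 1 / 2 * A' t)
    (C := (C₁ + n * C₂) * (C₂ : ℝ) ^ 2 * ‖y - x‖ ^ 2) (fun t ht => by
      rw [uIoc_of_le (zero_le_one)] at ht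
      exact hbd t ⟨ht.1.le, ht.2⟩)
  simpa using this

/-- the symplectic form as a continuous bilinear map -/
noncomputable def OmL (n : ℕ) : E n →L[ℝ] E n →L[ℝ] ℝ :=
  (OmB n).mkContinuous₂ (2 * n) (by
    intro x y
    have h1 := Om_bound x y
    rw [mul_assoc]
    exact h1)

lemma OmL_apply (v w : E n) : OmL n v w = Om v w := rfl

lemma Om_ext {a b : E n} (h : ∀ v, Om a v = Om b v) : a = b := by
  have h1 : ∀ c : E n, ∀ i, Om c (0, uv i) = c.1 i := by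
    intro c i
    rw [Om_apply]
    simp [uv, Pi.single_apply]
  have h2 : ∀ c : E n, ∀ i, Om c (uv i, 0) = -c.2 i := by
    intro c i
    rw [Om_apply]
    simp [uv, Pi.single_apply]
  apply Prod.ext
  · funext i
    rw [← h1 a i, ← h1 b i, h]
  · funext i
    have := h (uv i, 0)
    rw [h2, h2, neg_inj] at this
    exact this

lemma smooth_one {H : ℝ → E n → ℝ} {ψ : ℝ → E n → E n} (h : HIso n H ψ) (t : ℝ) :
    ContDiff ℝ ((⊤ : ℕ∞) : WithTop ℕ∞) (ψ t) :=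
  (HIso.contDiff h).comp (contDiff_const.prodMk contDiff_id)

/-- the derivative of the action -/
lemma hasFDerivAt_Act {H : ℝ → E n → ℝ} {ψ : ℝ → E n → E n} (h : HIso n H ψ) (x : E n) :
    HasFDerivAt (Act H ψ) ((1 / 2 : ℝ) • ((OmL n (ψ 1 x)).comp (fderiv ℝ (ψ 1) x) - OmL n x)) x := by
  obtain ⟨C, hC, h1⟩ := Act_incr h
  have hd : HasFDerivAt (ψ 1) (fderiv ℝ (ψ 1) x) x :=
    ((smooth_one h 1).differentiable (by simp) x).hasFDerivAt
  set g : E n → ℝ := fun y => 1 / 2 * (Om (ψ 1 x) (ψ 1 y - ψ 1 x) - Om x (y - x)) with hg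
  have hgd : HasFDerivAt g ((1 / 2 : ℝ) • ((OmL n (ψ 1 x)).comp (fderiv ℝ (ψ 1) x) - OmL n x)) x := by
    have e1 : HasFDerivAt (fun y => OmL n (ψ 1 x) (ψ 1 y - ψ 1 x))
        ((OmL n (ψ 1 x)).comp (fderiv ℝ (ψ 1) x)) x :=
      (OmL n (ψ 1 x)).hasFDerivAt.comp x (hd.sub_const (ψ 1 x))
    have e2 : HasFDerivAt (fun y => OmL n x (y - x))
        ((OmL n x).comp (ContinuousLinearMap.id ℝ (E n))) x :=
      (OmL n x).hasFDerivAt.comp x ((hasFDerivAt_id x).sub_const x)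
    rw [ContinuousLinearMap.comp_id] at e2
    exact (e1.sub e2).const_mul (1 / 2)
  set f : E n → ℝ := fun y => Act H ψ y - g y with hf
  have hfd : HasFDerivAt f (0 : E n →L[ℝ] ℝ) x := by
    have h2 : (fun y => f y - f x) =O[𝓝 x] fun y => ‖y - x‖ ^ 2 := by
      refine Asymptotics.IsBigO.of_bound C (Filter.Eventually.of_forall fun y => ?_)
      rw [Real.norm_eq_abs, Real.norm_eq_abs, abs_of_nonneg (sq_nonneg ‖y - x‖)]
      have h3 := h1 x y
      have e : f y - f x = Act H ψ y - Act H ψ x -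
          1 / 2 * (Om (ψ 1 x) (ψ 1 y - ψ 1 x) - Om x (y - x)) := by
        simp only [hf, hg, sub_self]
        have e0 : ∀ z : E n, Om z 0 = 0 := fun z => by
          rw [← OmL_apply, map_zero]
        rw [e0, e0]
        ring
      rw [e]
      exact h3
    have h3 : (fun y : E n => ‖y - x‖ ^ 2) =o[𝓝 x] fun y => y - x := by
      refine Asymptotics.isLittleO_pow_sub_sub x (by norm_num : 1 < 2) |>.congr_left ?_ |>.trans_le ?_
      · intro y; rfl
      · intro y; rfl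
    rw [hasFDerivAt_iff_isLittleO]
    simpa using h2.trans_isLittleO h3
  have h2 := hfd.add hgd
  rw [zero_add] at h2
  refine h2.congr_of_eventuallyEq (Filter.Eventually.of_forall fun y => ?_)
  simp [hf]

lemma Act_smooth {H : ℝ → E n → ℝ} {ψ : ℝ → E n → E n} (h : HIso n H ψ) :
    ContDiff ℝ ((⊤ : ℕ∞) : WithTop ℕ∞) (Act H ψ) := by
  rw [contDiff_infty_iff_fderiv]
  refine ⟨fun x => (hasFDerivAt_Act h x).differentiableAt, ?_⟩
  have e : fderiv ℝ (Act H ψ) = fun x => (1 / 2 : ℝ) •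
      ((OmL n (ψ 1 x)).comp (fderiv ℝ (ψ 1) x) - OmL n x) := by
    funext x
    exact (hasFDerivAt_Act h x).fderiv
  rw [e]
  have h1 := smooth_one h 1
  have h2 : ContDiff ℝ ((⊤ : ℕ∞) : WithTop ℕ∞) (fderiv ℝ (ψ 1)) :=
    (contDiff_infty_iff_fderiv.1 h1).2
  have h3 : ContDiff ℝ ((⊤ : ℕ∞) : WithTop ℕ∞) fun x => OmL n (ψ 1 x) :=
    (OmL n).contDiff.comp h1
  exact ((h3.clm_comp h2).sub (OmL n).contDiff).const_smul _

end Pool.Agent.W_68f289_h58
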