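import Pool.Agent.W_68f289_h58.Tc
import Pool.Agent.W_68f289_h58.Gp

/-!
Conjugation with homotheties: Hamiltonian homeomorphisms and hameomorphisms with support in a smaller
ball are images under homotheties.
-/

open Set Metric Topology Filter MeasureTheory
open scoped NNReal ContDiff

namespace Pool.Agent.W_68f289_h58

open Pool.Agent.W_MP_68f289_gt Pool.Agent.W_68f289_h35 Pool.Agent.W_68f289_h51

variable {n : ℕ}

/-! ### Homotheties -/

/-- the homothety with factor `s` (the identity if `s = 0`) -/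
noncomputable def hm (n : ℕ) (s : ℝ) : E n ≃ₜ E n := if h : s = 0 then 1 else aff 0 s h

lemma hm_eq {s : ℝ} (hs : s ≠ 0) : hm n s = aff 0 s hs := dif_neg hs

/-- conjugation with the homothety with factor `s` -/
noncomputable def cj (s : ℝ) (g : E n ≃ₜ E n) : E n ≃ₜ E n := hm n s * g * (hm n s)⁻¹

lemma cj_eq {s : ℝ} (hs : s ≠ 0) (g : E n ≃ₜ E n) : cj s g = aff 0 s hs * g * (aff 0 s hs)⁻¹ := by
  unfold cj
  rw [hm_eq hs]

lemma cj_apply {s : ℝ} (hs : s ≠ 0) (g : E n ≃ₜ E n) (x : E n) : cj s g x = s • g (s⁻¹ • x) := by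
  rw [cj_eq hs, aff_conj_apply, zero_add, sub_zero]

lemma cj_mul (s : ℝ) (g h : E n ≃ₜ E n) : cj s (g * h) = cj s g * cj s h := by
  unfold cj
  group

lemma cj_one (s : ℝ) : cj s (1 : E n ≃ₜ E n) = 1 := by
  unfold cj
  group

lemma cj_inv (s : ℝ) (g : E n ≃ₜ E n) : cj s g⁻¹ = (cj s g)⁻¹ := by
  unfold cj
  group

lemma cj_cj {s t : ℝ} (hs : s ≠ 0) (ht : t ≠ 0) (g : E n ≃ₜ E n) :
    cj s (cj t g) = cj (s * t) g := by
  apply Homeomorph.ext
  intro x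
  rw [cj_apply hs, cj_apply ht, cj_apply (mul_ne_zero hs ht), smul_smul, smul_smul, mul_inv_rev]

lemma cj_one_left (g : E n ≃ₜ E n) : cj 1 g = g := by
  apply Homeomorph.ext
  intro x
  rw [cj_apply one_ne_zero, inv_one, one_smul, one_smul]

lemma cj_inv_cj {s : ℝ} (hs : s ≠ 0) (g : E n ≃ₜ E n) : cj s⁻¹ (cj s g) = g := by
  rw [cj_cj (inv_ne_zero hs) hs, inv_mul_cancel₀ hs, cj_one_left]

lemma cj_cj_inv {s : ℝ} (hs : s ≠ 0) (g : E n ≃ₜ E n) : cj s (cj s⁻¹ g) = g := by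
  rw [cj_cj hs (inv_ne_zero hs), mul_inv_cancel₀ hs, cj_one_left]

lemma cj_inv_aff {s : ℝ} (hs : s ≠ 0) (g : E n ≃ₜ E n) :
    cj s⁻¹ g = (aff 0 s hs)⁻¹ * g * aff 0 s hs := by
  apply Homeomorph.ext
  intro x
  rw [cj_apply (inv_ne_zero hs), inv_inv]
  change _ = (aff 0 s hs)⁻¹ (g (aff 0 s hs x))
  rw [aff_inv_apply, aff_apply, zero_add, sub_zero]

lemma dist_cj {s : ℝ} (hs : s ≠ 0) (g h : E n ≃ₜ E n) (x : E n) :
    dist (cj s g x) (cj s h x) = |s| * dist (g (s⁻¹ • x)) (h (s⁻¹ • x)) := by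
  rw [cj_apply hs, cj_apply hs, dist_smul₀, Real.norm_eq_abs]

/-- supports -/
lemma cj_off {s : ℝ} (hs : 0 < s) {g : E n ≃ₜ E n} {A : Set (E n)} (hg : ∀ x, x ∉ A → g x = x)
    {A' : Set (E n)} (hA : ∀ x ∈ A, s • x ∈ A') {x : E n} (hx : x ∉ A') : cj s g x = x := by
  rw [cj_apply hs.ne', hg, smul_inv_smul₀ hs.ne']
  intro h
  have := hA _ h
  rw [smul_inv_smul₀ hs.ne'] at this
  exact hx this

lemma smul_mem_CB {s : ℝ} (hs : 0 < s) {r r' : ℝ} (hr : 0 ≤ r) (h : s * r ≤ r') {x : E n}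
    (hx : x ∈ CB n r) : s • x ∈ CB n r' := by
  have h0 : 0 ≤ s * r := by positivity
  rw [mem_CB hr] at hx
  rw [mem_CB (h0.trans h), en_smul, abs_of_pos hs]
  exact (mul_le_mul_of_nonneg_left hx hs.le).trans h

lemma smul_Bl {s : ℝ} (hs : 0 < s) {x : E n} (hx : x ∈ Bl n) : s • x ∈ CB n s := by
  rw [mem_Bl] at hx
  rw [mem_CB hs.le, en_smul, abs_of_pos hs]
  nlinarith

/-! ### Enlarging -/

/-- Hamiltonian diffeomorphisms -/
lemma isHam_cj_inv {u : E n ≃ₜ E n} (hu : IsHam n u) {r κ : ℝ} (hr : 0 < r) (hrκ : r < κ)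
    (h1 : κ ≤ 1) (hoff : ∀ x, x ∉ CB n r → u x = x) : IsHam n (cj κ⁻¹ u) := by
  rw [cj_inv_aff (hr.trans hrκ).ne']
  exact isHam_up hu hr hrκ h1 hoff

/-- Hamiltonian homeomorphisms with support in a smaller ball are images under a homothety -/
theorem GS_up {g : E n ≃ₜ E n} {r κ : ℝ} (hg : g ∈ GS n (CB n r)) (hr : 0 < r) (hrκ : r < κ)
    (h1 : κ ≤ 1) : cj κ⁻¹ g ∈ HamBar n := by
  have h0 : 0 < κ := hr.trans hrκ
  refine mem_HamBar_iff.2 (GS_gens (isCompact_CB (r / κ)) (CB_sub (by positivity)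
    ((div_lt_one h0).2 hrκ)) ⟨?_, fun ε hε => ?_⟩)
  · intro x hx
    refine cj_off (inv_pos.2 h0) hg.1 (fun x hx => ?_) hx
    refine smul_mem_CB (inv_pos.2 h0) hr.le (le_of_eq ?_) hx
    field_simp
  · obtain ⟨u, hu, huK, hud⟩ := hg.2 (κ * ε) (by positivity)
    refine ⟨cj κ⁻¹ u, isHam_cj_inv hu hr hrκ h1 huK, ?_, ?_⟩
    · intro x hx
      refine cj_off (inv_pos.2 h0) huK (fun x hx => ?_) hx
      refine smul_mem_CB (inv_pos.2 h0) hr.le (le_of_eq ?_) hx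
      field_simp
    · intro x
      rw [dist_cj (inv_ne_zero h0.ne'), abs_of_pos (inv_pos.2 h0), inv_mul_lt_iff₀ h0]
      exact hud _

/-- the analogue for hameomorphisms -/
theorem TPath_up {K : Set (E n)} {H : ℕ → ℝ → E n → ℝ} {ψ : ℕ → ℝ → E n → E n}
    {Φ : Icc (0 : ℝ) 1 → (E n ≃ₜ E n)} (h : TPath n K H ψ Φ) {r κ : ℝ} (hr : 0 < r) (hrκ : r < κ)
    (hK : K ⊆ CB n r) : cj κ⁻¹ (endp Φ) ∈ Hameo n := by
  have h0 : 0 < κ := hr.trans hrκ
  have h1 := TPath_affine h 0 (inv_ne_zero h0.ne') (fun x hx => by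
    rw [zero_add]
    refine CB_sub (r := r / κ) (by positivity) ((div_lt_one h0).2 hrκ) ?_
    refine smul_mem_CB (inv_pos.2 h0) hr.le (le_of_eq ?_) (hK hx)
    field_simp)
  have h2 := h1.endp_mem
  rw [cj_eq (inv_ne_zero h0.ne')]
  exact h2

/-- every hameomorphism or Hamiltonian homeomorphism is in the image of a homothety -/
theorem up_HamBar {g : E n ≃ₜ E n} (hg : g ∈ HamBar n) :
    ∃ r : ℝ, 0 < r ∧ r < 1 ∧ cj r⁻¹ g ∈ HamBar n := by
  obtain ⟨r, hr0, hr1, h⟩ := exists_Gn ⟨g, hg⟩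
  exact ⟨(r + 1) / 2, by linarith, by linarith, GS_up (mem_Gn.1 h) hr0 (by linarith) (by linarith)⟩

theorem up_Hameo {g : E n ≃ₜ E n} (hg : g ∈ Hameo n) :
    ∃ r : ℝ, 0 < r ∧ r < 1 ∧ cj r⁻¹ g ∈ Hameo n := by
  obtain ⟨K, H, ψ, Φ, h, he⟩ := exists_TPath ⟨g, hg⟩
  obtain ⟨r, hr0, hr1, hK⟩ := exists_CB h.comp h.sub
  refine ⟨(r + 1) / 2, by linarith, by linarith, ?_⟩
  have := TPath_up h hr0 (show r < (r + 1) / 2 by linarith) hK
  rw [he] at this
  exact this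

/-- homotheties act -/
theorem st_HamBar {s : ℝ} (h0 : 0 < s) (h1 : s ≤ 1) {g : E n ≃ₜ E n} (hg : g ∈ HamBar n) :
    cj s g ∈ HamBar n := by
  have := (sc n s h0 h1).mem hg
  rw [cj_eq h0.ne']
  exact this

/-- the image of a path under a homothety -/
lemma TPath_down {K : Set (E n)} {H : ℕ → ℝ → E n → ℝ} {ψ : ℕ → ℝ → E n → E n}
    {Φ : Icc (0 : ℝ) 1 → (E n ≃ₜ E n)} (h : TPath n K H ψ Φ) {s : ℝ} (h0 : 0 < s) (h1 : s ≤ 1) :
    ∃ K' H' ψ' Φ', TPath n K' H' ψ' Φ' ∧ K' ⊆ CB n s ∧ endp Φ' = cj s (endp Φ) := by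
  refine ⟨_, _, _, _, TPath_affine h 0 h0.ne' (fun x hx => ?_), ?_, ?_⟩
  · rw [zero_add, mem_Bl, en_smul, abs_of_pos h0]
    have := mem_Bl.1 (h.sub hx)
    have := en_nonneg x
    nlinarith
  · rintro _ ⟨x, hx, rfl⟩
    change (0 : E n) + s • x ∈ CB n s
    rw [zero_add]
    exact smul_Bl h0 (h.sub hx)
  · rw [cj_eq h0.ne']
    rfl

theorem st_Hameo {s : ℝ} (h0 : 0 < s) (h1 : s ≤ 1) {g : E n ≃ₜ E n} (hg : g ∈ Hameo n) :
    cj s g ∈ Hameo n := by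
  obtain ⟨K, H, ψ, Φ, h, he⟩ := exists_TPath ⟨g, hg⟩
  obtain ⟨K', H', ψ', Φ', h', -, he'⟩ := TPath_down h h0 h1
  have h2 := h'.endp_mem
  rw [he', he] at h2
  exact h2

/-! ### Conjugates with small homeomorphisms -/

/-- a homeomorphism which moves points by a small amount maps the ball of radius `s` into the ball
of radius `r'`, as do the close homeomorphisms -/
lemma exists_small {s r' : ℝ} (hs : 0 ≤ s) (hsr : s < r') : ∃ δ > 0, ∀ e : E n ≃ₜ E n,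
    (∀ x, dist (e x) x < δ) → ∃ η > 0, ∀ u : E n ≃ₜ E n, (∀ x, dist (u x) (e x) < η) →
      ∀ x ∈ CB n s, u x ∈ CB n r' := by
  have hr' : 0 ≤ r' := hs.trans hsr.le
  set U : Set (E n) := {x | en x < r'} with hU
  have hUo : IsOpen U :=
    isOpen_lt (Real.continuous_sqrt.comp qf_smooth.continuous) continuous_const
  have hUC : U ⊆ CB n r' := fun x hx => (mem_CB hr').2 (le_of_lt hx)
  have hsU : CB n s ⊆ U := fun x hx => ((mem_CB hs).1 hx).trans_lt hsr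
  obtain ⟨δ, hδ, h1⟩ := (isCompact_CB (n := n) s).exists_thickening_subset_open hUo hsU
  refine ⟨δ, hδ, fun e he => ?_⟩
  have h2 : e '' CB n s ⊆ U := by
    rintro _ ⟨x, hx, rfl⟩
    exact h1 (Metric.mem_thickening_iff.2 ⟨x, hx, he x⟩)
  obtain ⟨η, hη, h3⟩ := ((isCompact_CB (n := n) s).image e.continuous).exists_thickening_subset_open
    hUo h2
  exact ⟨η, hη, fun u hu x hx => hUC (h3 (Metric.mem_thickening_iff.2 ⟨e x, ⟨x, hx, rfl⟩, hu x⟩))⟩

lemma conj_off {e m : E n ≃ₜ E n} {s r' : ℝ} (hm : ∀ x, x ∉ CB n s → m x = x)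
    (he : ∀ x ∈ CB n s, e x ∈ CB n r') {x : E n} (hx : x ∉ CB n r') : (e * m * e⁻¹) x = x := by
  have h1 : e.symm x ∉ CB n s := by
    intro h
    have := he _ h
    rw [Homeomorph.apply_symm_apply] at this
    exact hx this
  change e (m (e.symm x)) = x
  rw [hm _ h1, Homeomorph.apply_symm_apply]

/-- conjugates of close homeomorphisms are close -/
lemma conj_close {e m : E n ≃ₜ E n} {K K' : Set (E n)} (hK : IsCompact K) (hK' : IsCompact K')
    (he : ∀ x, x ∉ K → e x = x) (hm : ∀ x, x ∉ K' → m x = x) {ε : ℝ} (hε : 0 < ε) :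
    ∃ η > 0, ∀ u w : E n ≃ₜ E n, (∀ x, dist (u x) (e x) < η) →
      (∀ x, dist (u.symm x) (e.symm x) < η) → (∀ x, dist (w x) (m x) < η) →
      ∀ x, dist ((u * w * u⁻¹) x) ((e * m * e⁻¹) x) < ε := by
  obtain ⟨δ₁, hδ₁, h1⟩ := W_MP_68f289_gt.unif e.continuous hK he (half_pos hε)
  obtain ⟨δ₂, hδ₂, h2⟩ := W_MP_68f289_gt.unif m.continuous hK' hm (half_pos hδ₁)
  refine ⟨min (ε / 2) (min (δ₁ / 2) δ₂), by positivity, fun u w hu hui hw x => ?_⟩
  have e1 : dist (u (w (u.symm x))) (e (w (u.symm x))) < ε / 2 :=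
    (hu _).trans_le (min_le_left _ _)
  have e2 : dist (w (u.symm x)) (m (u.symm x)) < δ₁ / 2 :=
    (hw _).trans_le ((min_le_right _ _).trans (min_le_left _ _))
  have e3 : dist (m (u.symm x)) (m (e.symm x)) < δ₁ / 2 :=
    h2 _ _ ((hui _).trans_le ((min_le_right _ _).trans (min_le_right _ _)))
  have e4 : dist (e (w (u.symm x))) (e (m (e.symm x))) < ε / 2 := by
    refine h1 _ _ ?_
    have := dist_triangle (w (u.symm x)) (m (u.symm x)) (m (e.symm x))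
    linarith
  have e5 := dist_triangle (u (w (u.symm x))) (e (w (u.symm x))) (e (m (e.symm x)))
  change dist (u (w (u.symm x))) (e (m (e.symm x))) < ε
  linarith

lemma exists_one_div_lt {ε : ℝ} (hε : 0 < ε) : ∃ N : ℕ, ∀ k : ℕ, N ≤ k → 1 / ((k : ℝ) + 1) < ε := by
  obtain ⟨N, hN⟩ := exists_nat_gt (1 / ε)
  refine ⟨N, fun k hk => ?_⟩
  have h1 : (N : ℝ) ≤ k := by exact_mod_cast hk
  have h2 : 1 / ε < (k : ℝ) + 1 := by linarith
  rw [div_lt_iff₀ hε] at h2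
  rw [div_lt_iff₀ (by positivity)]
  linarith

/-- the core property for Hamiltonian homeomorphisms -/
theorem core_HamBar {s r : ℝ} (hs : 0 < s) (hsr : s < r) (hr : r ≤ 1) : ∃ δ > 0,
    ∀ e ∈ HamBar n, (∀ x, dist (e x) x < δ) → ∀ h ∈ HamBar n,
      cj r⁻¹ (e * cj s h * e⁻¹) ∈ HamBar n := by
  have hs' : s < (s + r) / 2 := by linarith
  have hr' : (s + r) / 2 < r := by linarith
  obtain ⟨δ, hδ, h1⟩ := exists_small (n := n) hs.le hs'
  refine ⟨δ, hδ, fun e he hed h hh => ?_⟩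
  obtain ⟨η, hη, h2⟩ := h1 e hed
  refine GS_up (r := (s + r) / 2) ?_ (by linarith) hr' hr
  have hs1 : s ≤ 1 := (hsr.trans_le hr).le
  obtain ⟨K, hK, hKB, hg⟩ := exists_GS hh
  have hcoff : ∀ {v : E n ≃ₜ E n}, (∀ x, x ∉ K → v x = x) → ∀ x, x ∉ CB n s → cj s v x = x := by
    intro v hv x hx
    exact cj_off hs hv (fun x hx => smul_Bl hs (hKB hx)) hx
  refine ⟨fun x hx => conj_off (hcoff hg.1) (h2 e fun x => by rw [dist_self]; exact hη) hx,
    fun ε hε => ?_⟩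
  obtain ⟨K₀, hK₀, hK₀B, heK₀, u, hu, huK, hud, hui⟩ := TqE_seq he
  obtain ⟨η', hη', h3⟩ := conj_close hK₀ (isCompact_CB s) heK₀ (hcoff hg.1) hε
  obtain ⟨N₁, hN₁⟩ := exists_one_div_lt hη
  obtain ⟨N₂, hN₂⟩ := exists_one_div_lt hη'
  set k := max N₁ N₂ with hk
  obtain ⟨v, hv, hvK, hvd⟩ := hg.2 (η' / s) (by positivity)
  have hcv : IsHam n (cj s v) := by
    rw [cj_eq hs.ne']
    refine isHam_aff hv 0 s hs.ne' fun x hx => ?_
    rw [zero_add, mem_Bl, en_smul, abs_of_pos hs]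
    have := mem_Bl.1 hx
    have := en_nonneg x
    nlinarith
  refine ⟨u k * cj s v * (u k)⁻¹, isHam_mul (isHam_mul (hu k) hcv) (isHam_inv (hu k)), ?_, ?_⟩
  · intro x hx
    exact conj_off (hcoff hvK) (h2 (u k) fun x => (hud k x).trans (hN₁ k (le_max_left _ _))) hx
  · refine h3 (u k) (cj s v) (fun x => (hud k x).trans (hN₂ k (le_max_right _ _)))
      (fun x => (hui k x).trans (hN₂ k (le_max_right _ _))) fun x => ?_
    rw [dist_cj hs.ne', abs_of_pos hs]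
    have := hvd (s⁻¹ • x)
    rw [lt_div_iff₀ hs] at this
    linarith

/-- the core property for hameomorphisms -/
theorem core_Hameo {s r : ℝ} (hs : 0 < s) (hsr : s < r) (hr : r ≤ 1) : ∃ δ > 0,
    ∀ e ∈ Hameo n, (∀ x, dist (e x) x < δ) → ∀ h ∈ Hameo n,
      cj r⁻¹ (e * cj s h * e⁻¹) ∈ Hameo n := by
  have hs' : s < (s + r) / 2 := by linarith
  have hr' : (s + r) / 2 < r := by linarith
  obtain ⟨δ, hδ, h1⟩ := exists_small (n := n) hs.le hs'
  refine ⟨δ, hδ, fun e he hed h hh => ?_⟩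
  obtain ⟨η, hη, h2⟩ := h1 e hed
  have hs1 : s ≤ 1 := (hsr.trans_le hr).le
  obtain ⟨K, H, ψ, Φ, hp, hpe⟩ := exists_TPath ⟨h, hh⟩
  obtain ⟨K', H', ψ', Φ', hp', hK's, hpe'⟩ := TPath_down hp hs hs1
  obtain ⟨K₀, hK₀, hK₀B, heK₀, u, hu, huK, hud, hui⟩ := TqE_seq (Hameo_le he)
  have h3 := TPath_conj hp' hK₀ hK₀B heK₀ hu huK hud hui
  obtain ⟨N, hN⟩ := exists_one_div_lt hη
  have h4 := TPath_supp (K' := CB n ((s + r) / 2)) h3 (isCompact_CB _)
    (CB_sub (by linarith) (by linarith)) (m := N) (fun k hk t x hx => by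
      refine hp'.supp k t _ fun hmem => hx ?_
      have h5 := h2 (u k) (fun x => (hud k x).trans (hN k hk)) _ (hK's hmem)
      rw [Homeomorph.apply_symm_apply] at h5
      exact h5)
  have h5 := TPath_up h4 (by linarith) hr' subset_rfl
  have e1 : endp (fun t => e * Φ' t * e⁻¹) = e * cj s h * e⁻¹ := by
    have : endp (fun t => e * Φ' t * e⁻¹) = e * endp Φ' * e⁻¹ := rfl
    rw [this, hpe', hpe]
  rw [e1] at h5
  exact h5

end Pool.Agent.W_68f289_h58
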