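import Pool.Agent.W_68f289_h58.Sc

/-!
The scaling isotopy.
-/

open Set Metric Topology MeasureTheory
open scoped NNReal ContDiff

namespace Pool.Agent.W_68f289_h58

open Pool.Agent.W_MP_68f289_gt Pool.Agent.W_68f289_t6
open Pool.Agent.W_68f289_h35 (HIso.contDiff HIso.inv HIso.inv_contDiff HIso.apply_inv HIso.inv_apply
  HIso.homeo)

variable {n : ℕ}

lemma Act_off {H : ℝ → E n → ℝ} {ψ : ℝ → E n → E n} (h : HIso n H ψ) {x : E n} (hx : x ∉ Bl n) :
    Act H ψ x = 0 := by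
  obtain ⟨K, hK, hKB, h0⟩ := h.supp
  have hxK : x ∉ K := fun h => hx (hKB h)
  unfold Act
  have h1 : ∀ t ∈ uIcc (0 : ℝ) 1, W_68f289_t6.act H t (ψ t x) = 0 := by
    intro t ht
    rw [uIcc_of_le zero_le_one] at ht
    rw [flow_off h hK hKB h0 ht hxK]
    exact act_off h hK hKB h0 t hxK
  rw [intervalIntegral.integral_congr (g := fun _ => (0 : ℝ)) h1]
  simp

/-- the action vanishes off the support of the time-one map -/
lemma Act_off' {H : ℝ → E n → ℝ} {ψ : ℝ → E n → E n} (h : HIso n H ψ) {r : ℝ} (hr : 0 < r)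
    (hoff : ∀ x, x ∉ CB n r → ψ 1 x = x) {x : E n} (hx : x ∉ CB n r) : Act H ψ x = 0 := by
  have hx' : r < en x := by
    by_contra h'
    exact hx ((mem_CB hr.le).2 (not_lt.1 h'))
  have hray : ∀ s : ℝ, 1 ≤ s → s • x ∉ CB n r := by
    intro s hs hmem
    rw [mem_CB hr.le, en_smul, abs_of_nonneg (by linarith)] at hmem
    nlinarith [en_nonneg x]
  have hd0 : ∀ s : ℝ, 1 ≤ s → HasFDerivAt (Act H ψ) (0 : E n →L[ℝ] ℝ) (s • x) := by
    intro s hs
    have h1 := hasFDerivAt_Act h (s • x)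
    have h2 : ψ 1 =ᶠ[𝓝 (s • x)] id := by
      filter_upwards [(isClosed_CB r).isOpen_compl.mem_nhds (hray s hs)] with y hy
      exact hoff y hy
    rw [h2.fderiv_eq, fderiv_id, ContinuousLinearMap.comp_id, hoff _ (hray s hs), sub_self,
      smul_zero] at h1
    exact h1
  obtain ⟨S, hS1, hS⟩ : ∃ S : ℝ, 1 ≤ S ∧ 1 ≤ S * en x := by
    refine ⟨max 1 (1 / en x), le_max_left _ _, ?_⟩
    have hpos : 0 < en x := hr.trans hx'
    calc 1 = 1 / en x * en x := by field_simp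
      _ ≤ max 1 (1 / en x) * en x := mul_le_mul_of_nonneg_right (le_max_right _ _) hpos.le
  have hg : ∀ s ∈ Icc (1 : ℝ) S, (fun s : ℝ => Act H ψ (s • x)) s = Act H ψ ((1 : ℝ) • x) := by
    have hder : ∀ s : ℝ, 1 ≤ s → HasDerivAt (fun s : ℝ => Act H ψ (s • x)) 0 s := by
      intro s hs
      have h1 : HasDerivAt (fun s : ℝ => s • x) ((1 : ℝ) • x) s := (hasDerivAt_id s).smul_const x
      exact (hd0 s hs).comp_hasDerivAt s h1
    refine constant_of_has_deriv_right_zero ?_ ?_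
    · intro s hs
      exact (hder s hs.1).continuousAt.continuousWithinAt
    · intro s hs
      exact (hder s hs.1).hasDerivWithinAt
  have h2 := hg S ⟨hS1, le_rfl⟩
  rw [one_smul] at h2
  rw [← h2]
  apply Act_off h
  rw [mem_Bl, en_smul, abs_of_nonneg (by linarith), not_lt]
  exact hS

section iso

variable {H : ℝ → E n → ℝ} {ψ : ℝ → E n → E n} (h : HIso n H ψ) (κ : ℝ)

/-- the scaling factor at time `t` -/
noncomputable def rho (κ t : ℝ) : ℝ := 1 - (1 - κ) * th t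

lemma rho_smooth : ContDiff ℝ ((⊤ : ℕ∞) : WithTop ℕ∞) (rho κ) :=
  contDiff_const.sub (contDiff_const.mul th_smooth)

lemma rho_zero : rho κ 0 = 1 := by
  have h : th 0 = 0 := Real.smoothTransition.zero_of_nonpos le_rfl
  unfold rho
  rw [h]; ring

lemma rho_one : rho κ 1 = κ := by
  have h : th 1 = 1 := Real.smoothTransition.one_of_one_le le_rfl
  unfold rho
  rw [h]; ring

variable {κ}

lemma rho_ge (h1 : κ ≤ 1) (t : ℝ) : κ ≤ rho κ t := by
  unfold rho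
  have h2 : th t ≤ 1 := Real.smoothTransition.le_one t
  nlinarith

lemma rho_pos (h0 : 0 < κ) (h1 : κ ≤ 1) (t : ℝ) : 0 < rho κ t := h0.trans_le (rho_ge h1 t)

/-- the Hamiltonian of the scaling isotopy -/
noncomputable def GH (κ t : ℝ) (z : E n) : ℝ :=
  deriv (rho κ) t * (-2) * ((rho κ t)⁻¹) ^ 3 * Act H ψ (HIso.inv h 1 (rho κ t • z))

/-- the scaling isotopy -/
noncomputable def Gf (κ t : ℝ) (x : E n) : E n :=
  (rho κ t)⁻¹ • ψ 1 (rho κ t • HIso.inv h 1 x)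

lemma inv_smooth (t : ℝ) : ContDiff ℝ ((⊤ : ℕ∞) : WithTop ℕ∞) (HIso.inv h t) :=
  (HIso.inv_contDiff h).comp (contDiff_const.prodMk contDiff_id)

lemma inv_off' {r : ℝ} (hoff : ∀ x, x ∉ CB n r → ψ 1 x = x) {x : E n} (hx : x ∉ CB n r) :
    HIso.inv h 1 x = x := by
  conv_lhs => rw [← hoff x hx]
  exact HIso.inv_apply h 1 x

/-- the vector field of the Hamiltonian of the scaling isotopy -/
lemma XH_GH (h0 : 0 < κ) (h1 : κ ≤ 1) (t : ℝ) (y : E n) :
    XH (GH h κ t) ((rho κ t)⁻¹ • ψ 1 y) = (deriv (rho κ) t * ((rho κ t)⁻¹) ^ 2) •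
      (fderiv ℝ (ψ 1) y y - ψ 1 y) := by
  set ρ := rho κ t with hρ
  have hρ0 : 0 < ρ := rho_pos h0 h1 t
  set c := deriv (rho κ) t with hc
  set u := ψ 1 with hu
  set w := HIso.inv h 1 with hw
  apply Om_ext
  intro δ
  rw [← Om_XH]
  have hud : Differentiable ℝ u := (smooth_one h 1).differentiable (by simp)
  have hwd : Differentiable ℝ w := (inv_smooth h 1).differentiable (by simp)
  have hwu : w (u y) = y := HIso.inv_apply h 1 y
  -- the derivative of the Hamiltonian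
  have e1 : HasFDerivAt (fun z : E n => ρ • z) (ρ • ContinuousLinearMap.id ℝ (E n)) (ρ⁻¹ • u y) :=
    (hasFDerivAt_id _).const_smul ρ
  have e0 : ρ • (ρ⁻¹ • u y) = u y := smul_inv_smul₀ hρ0.ne' _
  have e2 : HasFDerivAt w (fderiv ℝ w (u y)) (ρ • (ρ⁻¹ • u y)) := by
    rw [e0]; exact (hwd _).hasFDerivAt
  have e3 : HasFDerivAt (Act H ψ) ((1 / 2 : ℝ) • ((OmL n (u y)).comp (fderiv ℝ u y) - OmL n y))
      (w (ρ • (ρ⁻¹ • u y))) := by
    rw [e0, hwu]; exact hasFDerivAt_Act h y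
  have e21 : HasFDerivAt (fun z => w (ρ • z))
      ((fderiv ℝ w (u y)).comp (ρ • ContinuousLinearMap.id ℝ (E n))) (ρ⁻¹ • u y) :=
    HasFDerivAt.comp (f := fun z : E n => ρ • z) (ρ⁻¹ • u y) e2 e1
  have e4 := (HasFDerivAt.comp (f := fun z => w (ρ • z)) (ρ⁻¹ • u y) e3 e21).const_mul
    (c * (-2) * ρ⁻¹ ^ 3)
  have e5 : fderiv ℝ (GH h κ t) (ρ⁻¹ • u y) δ = c * (-2) * ρ⁻¹ ^ 3 *
      ((1 / 2 : ℝ) * (Om (u y) (fderiv ℝ u y (fderiv ℝ w (u y) (ρ • δ))) -
        Om y (fderiv ℝ w (u y) (ρ • δ)))) := by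
    have e6 : HasFDerivAt (GH h κ t) _ (ρ⁻¹ • u y) := e4
    rw [e6.fderiv]
    rfl
  rw [e5]
  -- chain rule for the inverse
  have e7 : fderiv ℝ u y (fderiv ℝ w (u y) (ρ • δ)) = ρ • δ := by
    have e8 : HasFDerivAt (fun z => u (w z)) ((fderiv ℝ u y).comp (fderiv ℝ w (u y))) (u y) := by
      have e9 : HasFDerivAt u (fderiv ℝ u y) (w (u y)) := by
        rw [hwu]; exact (hud y).hasFDerivAt
      exact e9.comp (u y) (hwd _).hasFDerivAt
    have e10 : (fun z => u (w z)) = id := by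
      funext z
      exact HIso.apply_inv h 1 z
    rw [e10] at e8
    have e11 := e8.unique (hasFDerivAt_id (u y))
    exact congrArg (fun L : E n →L[ℝ] E n => L (ρ • δ)) e11
  have e12 : Om y (fderiv ℝ w (u y) (ρ • δ)) = Om (fderiv ℝ u y y) (ρ • δ) := by
    have e13 := Om_pres h (hud y).hasFDerivAt y (fderiv ℝ w (u y) (ρ • δ))
    rw [← e13]
    congr 1
  rw [e7, e12, Om_smul_right, Om_smul_right, Om_smul_left, Om_sub_left]
  field_simp
  ring

lemma GH_iso {r : ℝ} (hr : 0 < r) (hrκ : r < κ) (h1 : κ ≤ 1)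
    (hoff : ∀ x, x ∉ CB n r → ψ 1 x = x) : HIso n (GH h κ) (Gf h κ) := by
  have h0 : 0 < κ := hr.trans hrκ
  refine ⟨?_, ⟨CB n (r / κ), isCompact_CB _, CB_sub (by positivity) ((div_lt_one h0).2 hrκ),
    ?_⟩, ?_, ?_⟩
  · have e1 : ContDiff ℝ ((⊤ : ℕ∞) : WithTop ℕ∞) (deriv (rho κ)) :=
      (contDiff_infty_iff_deriv.1 (rho_smooth κ)).2
    have e2 : ContDiff ℝ ((⊤ : ℕ∞) : WithTop ℕ∞) fun t : ℝ => (rho κ t)⁻¹ :=
      (rho_smooth κ).inv fun t => (rho_pos h0 h1 t).ne'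
    have e3 : ContDiff ℝ ((⊤ : ℕ∞) : WithTop ℕ∞) fun p : ℝ × E n => rho κ p.1 • p.2 :=
      ((rho_smooth κ).comp contDiff_fst).smul contDiff_snd
    exact ((((e1.comp contDiff_fst).mul contDiff_const).mul ((e2.comp contDiff_fst).pow 3)).mul
      ((Act_smooth h).comp ((inv_smooth h 1).comp e3)))
  · intro t z hz
    have hz' : rho κ t • z ∉ CB n r := by
      intro hmem
      apply hz
      rw [mem_CB hr.le, en_smul, abs_of_pos (rho_pos h0 h1 t)] at hmem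
      rw [mem_CB (by positivity), le_div_iff₀ h0]
      have := rho_ge h1 t
      nlinarith [en_nonneg z]
    unfold GH
    rw [inv_off' h hoff hz', Act_off' h hr hoff hz', mul_zero]
  · intro x
    unfold Gf
    rw [rho_zero, inv_one, one_smul, one_smul]
    exact HIso.apply_inv h 1 x
  · intro t x
    set y0 := HIso.inv h 1 x with hy0
    set ρ := rho κ t with hρ
    have hρ0 : 0 < ρ := rho_pos h0 h1 t
    set c := deriv (rho κ) t with hc
    have hud : Differentiable ℝ (ψ 1) := (smooth_one h 1).differentiable (by simp)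
    have hρd : HasDerivAt (rho κ) c t := ((rho_smooth κ).differentiable (by simp) t).hasDerivAt
    have e1 : HasDerivAt (fun s => rho κ s • y0) (c • y0) t := hρd.smul_const y0
    have e2 : HasDerivAt (fun s => ψ 1 (rho κ s • y0)) (fderiv ℝ (ψ 1) (ρ • y0) (c • y0)) t :=
      (hud (ρ • y0)).hasFDerivAt.comp_hasDerivAt t e1
    have e3 : HasDerivAt (fun s => (rho κ s)⁻¹) (-c / ρ ^ 2) t := hρd.inv hρ0.ne'
    have e4 := e3.smul e2
    have e5 : Gf h κ t x = (rho κ t)⁻¹ • ψ 1 (ρ • y0) := rfl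
    rw [e5, XH_GH h h0 h1]
    have e6 : HasDerivAt (fun s => Gf h κ s x)
        ((rho κ t)⁻¹ • (fderiv ℝ (ψ 1) (ρ • y0) (c • y0)) + (-c / ρ ^ 2) • ψ 1 (rho κ t • y0)) t :=
      e4
    convert e6 using 1
    rw [← hρ, map_smul, map_smul]
    rw [smul_sub, smul_smul, smul_smul]
    have e7 : c * ρ⁻¹ ^ 2 * ρ = ρ⁻¹ * c := by field_simp
    have e8 : (c * ρ⁻¹ ^ 2) • ψ 1 (ρ • y0) = -((-c / ρ ^ 2) • ψ 1 (ρ • y0)) := by
      rw [← neg_smul]
      congr 1
      field_simp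
    rw [e7, e8, sub_neg_eq_add]

end iso

/-- a Hamiltonian diffeomorphism supported in the closed ball of radius `r` comes by homothety from a
Hamiltonian diffeomorphism, for each ratio `κ > r` -/
theorem isHam_up {u : E n ≃ₜ E n} (hu : IsHam n u) {r κ : ℝ} (hr : 0 < r) (hrκ : r < κ)
    (h1 : κ ≤ 1) (hoff : ∀ x, x ∉ CB n r → u x = x) :
    IsHam n ((aff 0 κ (hr.trans hrκ).ne')⁻¹ * u * aff 0 κ (hr.trans hrκ).ne') := by
  have h0 : 0 < κ := hr.trans hrκ
  obtain ⟨H, ψ, h, hψ⟩ := hu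
  have hoff' : ∀ x, x ∉ CB n r → ψ 1 x = x := fun x hx => by rw [← hψ, hoff x hx]
  have hG := GH_iso h hr hrκ h1 hoff'
  have hv : IsHam n (HIso.homeo hG 1) := ⟨_, _, hG, fun x => rfl⟩
  have huh : IsHam n u := ⟨H, ψ, h, hψ⟩
  have hw := isHam_mul hv huh
  have e : (HIso.homeo hG 1) * u = (aff 0 κ h0.ne')⁻¹ * u * aff 0 κ h0.ne' := by
    apply Homeomorph.ext
    intro x
    change Gf h κ 1 (u x) = (aff 0 κ h0.ne')⁻¹ (u (aff 0 κ h0.ne' x))
    rw [aff_inv_apply, aff_apply, zero_add, sub_zero]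
    unfold Gf
    rw [rho_one, hψ x, HIso.inv_apply, hψ]
  rw [← e]
  exact hw

end Pool.Agent.W_68f289_h58
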