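import Pool.Agent.W_68f289_h58.Fn
import Pool.Agent.W_MP_68f289_gt.Inf
import Pool.Agent.W_68f289_h51m.Pr
import Pool.Agent.W_68f289_h35m.Ap

/-!
The swindle: infinite products of copies of one homeomorphism which converge to the origin.
-/

open Set Metric Topology Filter
open scoped NNReal ContDiff

namespace Pool.Agent.W_68f289_h58

open Pool.Agent.W_MP_68f289_gt Pool.Agent.W_68f289_h35 Pool.Agent.W_68f289_h51

variable {n : ℕ}

/-- spherical shells -/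
def she (n k : ℕ) : Set (E n) := {z | (1 / 2 : ℝ) ^ (k + 1) < en z ∧ en z < (1 / 2 : ℝ) ^ k}

lemma she_dis : Dis (she n) where
  disj j k hjk := by
    rw [Set.disjoint_left]
    rintro x ⟨h1, h2⟩ ⟨h3, h4⟩
    have key : ∀ a b : ℕ, a < b → (1 / 2 : ℝ) ^ (a + 1) < en x → en x < (1 / 2 : ℝ) ^ b →
        False := by
      intro a b hab h5 h6
      have : (1 / 2 : ℝ) ^ b ≤ (1 / 2 : ℝ) ^ (a + 1) :=
        pow_le_pow_of_le_one (by norm_num) (by norm_num) hab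
      linarith
    rcases lt_or_gt_of_ne hjk with h | h
    · exact key j k h h1 h4
    · exact key k j h h3 h2
  small ε hε := by
    obtain ⟨N, hN⟩ := exists_pow_lt_of_lt_one (show 0 < ε / 2 by positivity)
      (show (1 / 2 : ℝ) < 1 by norm_num)
    refine ⟨N, fun k hk x hx y hy => ?_⟩
    have h1 : (1 / 2 : ℝ) ^ k ≤ (1 / 2 : ℝ) ^ N :=
      pow_le_pow_of_le_one (by norm_num) (by norm_num) hk
    have h2 := norm_le_en x
    have h3 := norm_le_en y
    have h4 := hx.2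
    have h5 := hy.2
    rw [dist_eq_norm]
    linarith [norm_sub_le x y]

lemma smul_mem_she {k : ℕ} {x : E n} : (1 / 2 : ℝ) • x ∈ she n (k + 1) ↔ x ∈ she n k := by
  unfold she
  simp only [mem_ofPred_eq, en_smul, abs_of_pos (show (0 : ℝ) < 1 / 2 by norm_num), pow_succ]
  constructor
  · rintro ⟨h1, h2⟩
    constructor <;> linarith
  · rintro ⟨h1, h2⟩
    constructor <;> linarith

lemma exists_pt (hn : 1 ≤ n) : ∃ q : E n, en q = 3 / 4 := by
  obtain ⟨i⟩ : Nonempty (Fin n) := ⟨⟨0, hn⟩⟩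
  refine ⟨(Pi.single i (3 / 4 : ℝ), 0), ?_⟩
  have h1 : qf ((Pi.single i (3 / 4 : ℝ), 0) : E n) = (3 / 4) ^ 2 := by
    unfold qf
    rw [Finset.sum_eq_single i]
    · simp
    · intro j _ hj
      simp [Pi.single_eq_of_ne hj]
    · simp
  unfold en
  rw [h1, Real.sqrt_sq (by norm_num)]

section copies

variable {q : E n} (hq : en q = 3 / 4) {s : ℝ} (h0 : 0 < s) (h1 : s ≤ 1 / 8)

include hq h0 h1 in
lemma cp_bound (k : ℕ) : en ((1 / 2 : ℝ) ^ k • q) + |(1 / 2 : ℝ) ^ k * s| ≤ 7 / 8 := by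
  have h2 : (0 : ℝ) < (1 / 2) ^ k := by positivity
  have h3 : (1 / 2 : ℝ) ^ k ≤ 1 := pow_le_one₀ (by norm_num) (by norm_num)
  rw [en_smul, abs_of_pos h2, abs_of_pos (by positivity), hq]
  nlinarith

/-- the affine maps onto small balls which converge to the origin -/
noncomputable def cp (k : ℕ) : HT n :=
  HT.mk' ((1 / 2 : ℝ) ^ k • q) ((1 / 2 : ℝ) ^ k * s) (by positivity)
    ((cp_bound hq h0 h1 k).trans (by norm_num))

lemma cp_Gn (k : ℕ) (g : G n) : (cp hq h0 h1 k).a g ∈ Gn n (7 / 8) :=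
  HT.a_Gn _ g (by norm_num) (cp_bound hq h0 h1 k)

include hq h0 h1 in
lemma cp_she (k : ℕ) {x : E n} (hx : x ∈ Bl n) :
    (1 / 2 : ℝ) ^ k • q + ((1 / 2 : ℝ) ^ k * s) • x ∈ she n k := by
  have hp : (0 : ℝ) < (1 / 2) ^ k := by positivity
  have e : (1 / 2 : ℝ) ^ k • q + ((1 / 2 : ℝ) ^ k * s) • x = (1 / 2 : ℝ) ^ k • (q + s • x) := by
    rw [smul_add, smul_smul]
  have hx1 : en x < 1 := mem_Bl.1 hx
  have hsx : en (s • x) < 1 / 8 := by
    rw [en_smul, abs_of_pos h0]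
    nlinarith [en_nonneg x]
  have h2 : en (q + s • x) < 1 := by
    have := en_add q (s • x)
    linarith
  have h3 : 1 / 2 < en (q + s • x) := by
    have h4 := en_add (q + s • x) ((-1 : ℝ) • (s • x))
    have e2 : q + s • x + (-1 : ℝ) • (s • x) = q := by module
    have e3 : en ((-1 : ℝ) • (s • x)) = en (s • x) := by rw [en_smul]; simp
    rw [e2, e3] at h4
    linarith
  rw [e]
  constructor
  · rw [en_smul, abs_of_pos hp, pow_succ]
    nlinarith
  · rw [en_smul, abs_of_pos hp]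
    nlinarith

lemma cp_off (k : ℕ) (g : G n) : Off ((cp hq h0 h1 k).a g) (she n k) :=
  HT.a_off _ (off_Bl g) fun _ hx => cp_she hq h0 h1 k hx

lemma cp_succ (k : ℕ) (g : G n) (x : E n) :
    (cp hq h0 h1 (k + 1)).a g • ((1 / 2 : ℝ) • x) = (1 / 2 : ℝ) • ((cp hq h0 h1 k).a g • x) := by
  rw [HT.a_smul, HT.a_smul]
  change (1 / 2 : ℝ) ^ (k + 1) • q + ((1 / 2 : ℝ) ^ (k + 1) * s) •
    (g • (((1 / 2 : ℝ) ^ (k + 1) * s)⁻¹ • ((1 / 2 : ℝ) • x - (1 / 2 : ℝ) ^ (k + 1) • q))) =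
    (1 / 2 : ℝ) • ((1 / 2 : ℝ) ^ k • q + ((1 / 2 : ℝ) ^ k * s) •
      (g • (((1 / 2 : ℝ) ^ k * s)⁻¹ • (x - (1 / 2 : ℝ) ^ k • q))))
  have hp : (1 / 2 : ℝ) ^ k ≠ 0 := by positivity
  have e : ((1 / 2 : ℝ) ^ (k + 1) * s)⁻¹ • ((1 / 2 : ℝ) • x - (1 / 2 : ℝ) ^ (k + 1) • q) =
      ((1 / 2 : ℝ) ^ k * s)⁻¹ • (x - (1 / 2 : ℝ) ^ k • q) := by
    rw [smul_sub, smul_sub, smul_smul, smul_smul, smul_smul]
    congr 2
    · rw [pow_succ]
      field_simp
    · rw [pow_succ]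
      field_simp
  rw [e, smul_add, smul_smul, smul_smul, pow_succ]
  congr 2
  · ring
  · ring

/-- the sequence of copies -/
noncomputable def cpS (g : G n) : Sg (she n) (7 / 8) :=
  ⟨fun k => (cp hq h0 h1 k).a g, fun k => ⟨cp_Gn hq h0 h1 k g, cp_off hq h0 h1 k g⟩⟩

/-- the infinite product and its self-similarity -/
lemma exists_self (g : G n) : ∃ y : G n, (∀ k, ∀ x ∈ she n k, y • x = (cp hq h0 h1 k).a g • x) ∧
    (∀ x : E n, (∀ k, x ∉ she n k) → y • x = x) ∧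
    (y : E n ≃ₜ E n) = ((cp hq h0 h1 0).a g : E n ≃ₜ E n) * cj (1 / 2) (y : E n ≃ₜ E n) := by
  obtain ⟨y, -, hy1, hy2⟩ := exists_ip (she_dis (n := n)) (R := 7 / 8) (by norm_num) (by norm_num)
    (cpS hq h0 h1 g)
  refine ⟨y, hy1, hy2, ?_⟩
  apply Homeomorph.ext
  intro x
  obtain ⟨z, rfl⟩ : ∃ z : E n, x = (1 / 2 : ℝ) • z := ⟨(1 / 2 : ℝ)⁻¹ • x, by
    rw [smul_inv_smul₀ (by norm_num)]⟩
  change y • ((1 / 2 : ℝ) • z) = (cp hq h0 h1 0).a g • (cj (1 / 2) (y : E n ≃ₜ E n) ((1 / 2 : ℝ) • z))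
  rw [cj_apply (by norm_num), inv_smul_smul₀ (by norm_num)]
  change y • ((1 / 2 : ℝ) • z) = (cp hq h0 h1 0).a g • ((1 / 2 : ℝ) • (y • z))
  by_cases hz : ∃ k, z ∈ she n k
  · obtain ⟨k, hk⟩ := hz
    have hk' : (1 / 2 : ℝ) • z ∈ she n (k + 1) := smul_mem_she.2 hk
    rw [hy1 k z hk, hy1 (k + 1) _ hk']
    change (cp hq h0 h1 (k + 1)).a g • ((1 / 2 : ℝ) • z) =
      (cp hq h0 h1 0).a g • ((1 / 2 : ℝ) • ((cp hq h0 h1 k).a g • z))
    rw [← cp_succ]
    have h2 := (cp_off hq h0 h1 (k + 1) g).smul_mem hk'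
    symm
    apply cp_off hq h0 h1 0 g
    intro h3
    have := she_dis.eq h2 h3
    omega
  · push Not at hz
    rw [hy2 z hz]
    by_cases hx : (1 / 2 : ℝ) • z ∈ she n 0
    · rw [hy1 0 _ hx]
      rfl
    · rw [cp_off hq h0 h1 0 g _ hx]
      refine hy2 _ fun k => ?_
      cases k with
      | zero => exact hx
      | succ k => exact fun h => hz k (smul_mem_she.1 h)

/-- the first copy is conjugate to the image under a homothety -/
lemma exists_conj (hq : en q = 3 / 4) : ∃ s₀ > 0, ∃ c : E n ≃ₜ E n, IsHam n c ∧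
    ∀ (s : ℝ) (h0 : 0 < s) (h1 : s ≤ 1 / 8), s ≤ s₀ → ∀ g : G n,
      ((cp hq h0 h1 0).a g : E n ≃ₜ E n) = c * cj s (g : E n ≃ₜ E n) * c⁻¹ := by
  have h0B : (0 : E n) ∈ Bl n := by rw [mem_Bl, en_zero]; norm_num
  have hqB : q ∈ Bl n := by rw [mem_Bl, hq]; norm_num
  obtain ⟨ρ₁, hρ₁, hB₁⟩ := Metric.nhds_basis_closedBall.mem_iff.1 (isOpen_Bl.mem_nhds h0B)
  obtain ⟨ρ₂, hρ₂, hB₂⟩ := Metric.nhds_basis_closedBall.mem_iff.1 (isOpen_Bl.mem_nhds hqB)
  set ρ := min ρ₁ ρ₂ with hρ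
  have hρ0 : 0 < ρ := lt_min hρ₁ hρ₂
  obtain ⟨c, hc, hcx⟩ := exists_translation (p := (0 : E n)) (q := q) hρ0
    ((closedBall_subset_closedBall (min_le_left _ _)).trans hB₁)
    ((closedBall_subset_closedBall (min_le_right _ _)).trans hB₂)
  refine ⟨ρ, hρ0, c, hc, fun s h0 h1 hs g => ?_⟩
  rw [eq_mul_inv_iff_mul_eq]
  apply Homeomorph.ext
  intro x
  have hg : ∀ z : E n, 1 ≤ ‖z‖ → (g : E n ≃ₜ E n) z = z := by
    intro z hz
    refine off_Bl g z fun h => ?_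
    have h2 := mem_Bl.1 h
    have h3 := norm_le_en z
    linarith
  have e0 : ∀ z : E n, ((cp hq h0 h1 0).a g : E n ≃ₜ E n) z =
      q + s • (g : E n ≃ₜ E n) (s⁻¹ • (z - q)) := by
    intro z
    have h2 := HT.a_smul (cp hq h0 h1 0) g z
    change ((cp hq h0 h1 0).a g : E n ≃ₜ E n) z = (1 / 2 : ℝ) ^ 0 • q + ((1 / 2 : ℝ) ^ 0 * s) •
      ((g : E n ≃ₜ E n) (((1 / 2 : ℝ) ^ 0 * s)⁻¹ • (z - (1 / 2 : ℝ) ^ 0 • q))) at h2
    rw [pow_zero, one_smul, one_mul] at h2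
    exact h2
  change ((cp hq h0 h1 0).a g : E n ≃ₜ E n) (c x) = c (cj s (g : E n ≃ₜ E n) x)
  rw [e0, cj_apply h0.ne']
  by_cases hx : x ∈ closedBall (0 : E n) ρ
  · rw [hcx x hx, sub_zero, add_sub_cancel_right]
    rw [hcx, sub_zero, add_comm]
    by_cases hsx : 1 ≤ ‖s⁻¹ • x‖
    · rw [hg _ hsx, smul_inv_smul₀ h0.ne']
      exact hx
    · have h2 : ‖(g : E n ≃ₜ E n) (s⁻¹ • x)‖ < 1 := by
        by_cases hB : s⁻¹ • x ∈ Bl n
        · exact (norm_le_en _).trans_lt (mem_Bl.1 ((off_Bl g).smul_mem hB))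
        · have h3 : (g : E n ≃ₜ E n) (s⁻¹ • x) = s⁻¹ • x := off_Bl g _ hB
          rw [h3]
          exact not_le.1 hsx
      rw [mem_closedBall_zero_iff, norm_smul, Real.norm_eq_abs, abs_of_pos h0]
      nlinarith
  · have hx' : ρ < ‖x‖ := by
      rw [mem_closedBall_zero_iff, not_le] at hx
      exact hx
    have h2 : 1 ≤ ‖s⁻¹ • x‖ := by
      rw [norm_smul, norm_inv, Real.norm_eq_abs, abs_of_pos h0, le_inv_mul_iff₀ h0]
      linarith
    rw [hg _ h2, smul_inv_smul₀ h0.ne']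
    have h3 : ρ < ‖c x - q‖ := by
      by_contra hcon
      have h4 : c x - q ∈ closedBall (0 : E n) ρ := by
        rw [mem_closedBall_zero_iff]
        exact not_lt.1 hcon
      have h5 := hcx _ h4
      rw [sub_zero, sub_add_cancel] at h5
      have h6 := c.injective h5
      rw [h6] at h4
      exact hx h4
    have h4 : 1 ≤ ‖s⁻¹ • (c x - q)‖ := by
      rw [norm_smul, norm_inv, Real.norm_eq_abs, abs_of_pos h0, le_inv_mul_iff₀ h0]
      linarith
    rw [hg _ h4, smul_inv_smul₀ h0.ne', add_sub_cancel]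

end copies

/-- the swindle for Hamiltonian homeomorphisms -/
theorem sw_HamBar (hn : 1 ≤ n) {g : E n ≃ₜ E n} (hg : g ∈ HamBar n) :
    ∃ s t : ℝ, 0 < s ∧ s ≤ 1 ∧ 0 < t ∧ t ≤ 1 ∧ ∃ y ∈ HamBar n, ∃ c ∈ HamBar n,
      y = c * cj s g * c⁻¹ * cj t y := by
  obtain ⟨q, hq⟩ := exists_pt hn
  obtain ⟨s₀, hs₀, c, hc, h⟩ := exists_conj hq
  have h0 : 0 < min s₀ (1 / 8) := lt_min hs₀ (by norm_num)
  have h1 : min s₀ (1 / 8) ≤ 1 / 8 := min_le_right _ _
  obtain ⟨y, -, -, hy⟩ := exists_self hq h0 h1 ⟨g, hg⟩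
  rw [h _ h0 h1 (min_le_left _ _)] at hy
  exact ⟨_, 1 / 2, h0, by linarith, by norm_num, by norm_num, y, y.2, c, big_HamBar.ham c hc, hy⟩

/-! ### Hameomorphisms -/

section hameo

variable {K : Set (E n)} {H : ℕ → ℝ → E n → ℝ} {ψ : ℕ → ℝ → E n → E n}
  {Φ : Icc (0 : ℝ) 1 → (E n ≃ₜ E n)}

lemma TPath_dist (h : TPath n K H ψ Φ) (t : Icc (0 : ℝ) 1) (x : E n) : dist (Φ t x) x ≤ 2 := by
  by_cases hx : x ∈ K
  · have h1 : Φ t x ∈ K := by
      by_contra hcon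
      have h2 := h.off t hcon
      rw [(Φ t).injective h2] at hcon
      exact hcon hx
    have h3 := (norm_le_en x).trans_lt (mem_Bl.1 (h.sub hx))
    have h4 := (norm_le_en (Φ t x)).trans_lt (mem_Bl.1 (h.sub h1))
    rw [dist_eq_norm]
    linarith [norm_sub_le (Φ t x) x]
  · rw [h.off t hx, dist_self]
    norm_num

/-- a path with bounded Hofer norms -/
lemma exists_bounded (h : TPath n K H ψ Φ) : ∃ H' ψ', TPath n K H' ψ' Φ ∧
    ∃ C : ℝ, 0 < C ∧ ∀ k, hofer (H' k) ≤ C := by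
  obtain ⟨N, hN⟩ := h.cauchy 1 one_pos
  refine ⟨_, _, TPath_supp h h.comp h.sub (m := N) (fun k _ t x hx => h.supp k t x hx),
    1 + |hofer (H N)|, by positivity, fun k => ?_⟩
  have h1 := hN (k + N) N (Nat.le_add_left N k) le_rfl
  have h2 := hofer_add_le (H := fun t x => H (k + N) t x - H N t x) (H' := H N)
    ((h.iso _).smooth.continuous.sub (h.iso _).smooth.continuous) (h.iso _).smooth.continuous
    h.comp (fun t x hx => by rw [h.supp _ t x hx, h.supp _ t x hx, sub_self])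
    (fun t x hx => h.supp _ t x hx)
  have e : (fun (t : ℝ) (x : E n) => H (k + N) t x - H N t x + H N t x) = H (k + N) := by
    funext t x
    exact sub_add_cancel _ _
  rw [e] at h2
  have h3 := le_abs_self (hofer (H N))
  linarith

/-- small affine copies of a path -/
lemma copy_small (h : TPath n K H ψ Φ) {C : ℝ} (hC : ∀ k, hofer (H k) ≤ C) {c : E n} {ρ δ R : ℝ}
    (hρ : 0 < ρ) (hR : 0 ≤ R) (hR1 : R < 1) (hb : en c + |ρ| ≤ R) (h1 : ρ * 2 ≤ δ)
    (h2 : ρ ^ 2 * C ≤ δ) :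
    aff c ρ hρ.ne' * endp Φ * (aff c ρ hρ.ne')⁻¹ ∈ Small n (CB n R) δ := by
  have hsub : ∀ x ∈ K, c + ρ • x ∈ CB n R := by
    intro x hx
    have hx1 : en x < 1 := mem_Bl.1 (h.sub hx)
    rw [mem_CB hR]
    have h3 := en_add c (ρ • x)
    rw [en_smul] at h3
    have h4 : |ρ| * en x ≤ |ρ| := mul_le_of_le_one_right (abs_nonneg _) hx1.le
    linarith
  have hp := TPath_affine h c hρ.ne' fun x hx => CB_sub hR hR1 (hsub x hx)
  have hp2 := TPath_supp hp (isCompact_CB R) (CB_sub hR hR1) (m := 0) (fun k _ t x hx => by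
    refine hp.supp k t x fun hmem => hx ?_
    obtain ⟨z, hz, rfl⟩ := hmem
    exact hsub z hz)
  refine ⟨_, _, _, hp2, rfl, fun k => ?_, fun t x => ?_⟩
  · have h3 := hofer_affine (H := H (k + 0))
      (fun t => bd_of_supp (h.iso _).smooth.continuous h.comp (h.supp _) t) c hρ.ne'
    change hofer (fun t x => ρ ^ 2 * H (k + 0) t (ρ⁻¹ • (x - c))) ≤ δ
    rw [h3]
    exact (mul_le_mul_of_nonneg_left (hC _) (by positivity)).trans h2
  · change dist ((aff c ρ hρ.ne' * Φ t * (aff c ρ hρ.ne')⁻¹) x) x ≤ δ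
    rw [aff_conj_apply]
    obtain ⟨z, rfl⟩ : ∃ z : E n, x = c + ρ • z := ⟨ρ⁻¹ • (x - c), by
      rw [smul_inv_smul₀ hρ.ne', add_sub_cancel]⟩
    rw [add_sub_cancel_left, inv_smul_smul₀ hρ.ne', dist_add_left, dist_smul₀, Real.norm_eq_abs,
      abs_of_pos hρ]
    exact (mul_le_mul_of_nonneg_left (TPath_dist h t z) hρ.le).trans h1

/-- the infinite product of small copies of a hameomorphism is a hameomorphism -/
lemma self_mem_Hameo (h : TPath n K H ψ Φ) {C : ℝ} (hC : ∀ k, hofer (H k) ≤ C) {q : E n}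
    (hq : en q = 3 / 4) {s : ℝ} (h0 : 0 < s) (h1 : s ≤ 1 / 8) (hsC : s * C ≤ 1) {g : G n}
    (hg : endp Φ = (g : E n ≃ₜ E n)) {y : G n}
    (hy1 : ∀ k, ∀ x ∈ she n k, y • x = (cp hq h0 h1 k).a g • x)
    (hy2 : ∀ x : E n, (∀ k, x ∉ she n k) → y • x = x) : (y : E n ≃ₜ E n) ∈ Hameo n := by
  set w : ℕ → (E n ≃ₜ E n) := fun k => ((cp hq h0 h1 k).a g : E n ≃ₜ E n) with hw
  have hwoff : ∀ k, ∀ x, x ∉ she n k → w k x = x := fun k x hx => cp_off hq h0 h1 k g x hx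
  have hwmem : ∀ k, ∀ x ∈ she n k, w k x ∈ she n k := fun k x hx =>
    (cp_off hq h0 h1 k g).smul_mem hx
  set v : ℕ → (E n ≃ₜ E n) := fun N => Nat.rec (motive := fun _ => (E n ≃ₜ E n)) 1
    (fun N v => w N * v) N with hv
  have hv0 : v 0 = 1 := rfl
  have hvS : ∀ N, v (N + 1) = w N * v N := fun N => rfl
  have hA : ∀ N, ∀ x, (∀ k < N, x ∉ she n k) → v N x = x := by
    intro N
    induction N with
    | zero => intro x _; rfl
    | succ N ih =>
      intro x hx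
      rw [hvS]
      change w N (v N x) = x
      rw [ih x fun k hk => hx k (by omega)]
      exact hwoff N x (hx N (by omega))
  have hB : ∀ N k, k < N → ∀ x ∈ she n k, v N x = w k x := by
    intro N
    induction N with
    | zero => intro k hk; omega
    | succ N ih =>
      intro k hk x hx
      rw [hvS]
      change w N (v N x) = w k x
      by_cases hkN : k = N
      · subst hkN
        rw [hA k x fun j hj hj' => by
          have := she_dis.eq hx hj'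
          omega]
      · rw [ih k (by omega) x hx]
        refine hwoff N _ fun h' => hkN ?_
        exact she_dis.eq (hwmem k x hx) h'
  refine infinite_product (K := CB n (7 / 8)) (w := w) (v := v) (isCompact_CB _)
    (CB_sub (by norm_num) (by norm_num)) (fun N => ?_) hv0 hvS (fun ε hε => ?_)
  · have hp : (0 : ℝ) < (1 / 2) ^ N := by positivity
    have hp1 : (1 / 2 : ℝ) ^ N ≤ 1 := pow_le_one₀ (by norm_num) (by norm_num)
    have h3 := copy_small h hC (c := (1 / 2 : ℝ) ^ N • q) (ρ := (1 / 2 : ℝ) ^ N * s)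
      (δ := (1 / 2) ^ N) (by positivity) (R := 7 / 8) (by norm_num) (by norm_num)
      (cp_bound hq h0 h1 N) (by nlinarith) (by
        have e : ((1 / 2 : ℝ) ^ N * s) ^ 2 * C = (1 / 2) ^ N * ((1 / 2) ^ N * (s * (s * C))) := by
          ring
        rw [e]
        refine mul_le_of_le_one_right hp.le ?_
        have h4 : s * (s * C) ≤ 1 := by nlinarith
        nlinarith)
    rw [hg] at h3
    exact h3
  · obtain ⟨N₀, hN₀⟩ := (she_dis (n := n)).small ε hε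
    refine ⟨N₀, fun N hN x => ?_⟩
    by_cases hx : ∃ k, x ∈ she n k
    · obtain ⟨k, hk⟩ := hx
      have e : (y : E n ≃ₜ E n) x = w k x := hy1 k x hk
      rw [e]
      by_cases hkN : k < N
      · rw [hB N k hkN x hk, dist_self]
        exact hε
      · rw [hA N x fun j hj hj' => by
          have := she_dis.eq hk hj'
          omega]
        exact hN₀ k (by omega) _ hk _ (hwmem k x hk)
    · push Not at hx
      have e : (y : E n ≃ₜ E n) x = x := hy2 x hx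
      rw [e, hA N x fun j _ => hx j, dist_self]
      exact hε

/-- the swindle for hameomorphisms -/
theorem sw_Hameo (hn : 1 ≤ n) {g : E n ≃ₜ E n} (hg : g ∈ Hameo n) :
    ∃ s t : ℝ, 0 < s ∧ s ≤ 1 ∧ 0 < t ∧ t ≤ 1 ∧ ∃ y ∈ Hameo n, ∃ c ∈ Hameo n,
      y = c * cj s g * c⁻¹ * cj t y := by
  obtain ⟨q, hq⟩ := exists_pt hn
  obtain ⟨s₀, hs₀, c, hc, h⟩ := exists_conj hq
  obtain ⟨K, H, ψ, Φ, hp, hpe⟩ := exists_TPath ⟨g, hg⟩
  obtain ⟨H', ψ', hp', C, hC0, hC⟩ := exists_bounded hp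
  have h0 : 0 < min (min s₀ (1 / 8)) C⁻¹ := by positivity
  set s := min (min s₀ (1 / 8)) C⁻¹ with hs
  have h1 : s ≤ 1 / 8 := (min_le_left _ _).trans (min_le_right _ _)
  have h2 : s ≤ s₀ := (min_le_left _ _).trans (min_le_left _ _)
  have h3 : s * C ≤ 1 := by
    have h4 : s ≤ C⁻¹ := min_le_right _ _
    calc s * C ≤ C⁻¹ * C := mul_le_mul_of_nonneg_right h4 hC0.le
      _ = 1 := inv_mul_cancel₀ hC0.ne'
  obtain ⟨y, hy1, hy2, hy⟩ := exists_self hq h0 h1 ⟨g, Hameo_le hg⟩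
  have hyH := self_mem_Hameo hp' hC hq h0 h1 h3 (g := ⟨g, Hameo_le hg⟩) hpe hy1 hy2
  rw [h _ h0 h1 h2] at hy
  exact ⟨s, 1 / 2, h0, by linarith, by norm_num, by norm_num, y, hyH, c, big_Hameo.ham c hc, hy⟩

end hameo

/-- the two groups -/
theorem gd_HamBar (hn : 1 ≤ n) : Gd (HamBar n) where
  big := big_HamBar
  le := le_rfl
  st _ h0 h1 _ hg := st_HamBar h0 h1 hg
  up _ hg := up_HamBar hg
  core _ _ hs hsr hr := core_HamBar hs hsr hr
  sw _ hg := sw_HamBar hn hg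

theorem gd_Hameo (hn : 1 ≤ n) : Gd (Hameo n) where
  big := big_Hameo
  le := Hameo_le
  st _ h0 h1 _ hg := st_Hameo h0 h1 hg
  up _ hg := up_Hameo hg
  core _ _ hs hsr hr := core_Hameo hs hsr hr
  sw _ hg := sw_Hameo hn hg

end Pool.Agent.W_68f289_h58
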