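import Pool.Agent.W_68f289_h51m.Pr
import Pool.Agent.W_68f289_h35m.Tq
import Pool.Agent.W_68f289_h58.Sk

/-!
Affine images and conjugates of topological Hamiltonian paths, with control of the supports.
-/

open Set Metric Topology Filter MeasureTheory
open scoped NNReal ContDiff

namespace Pool.Agent.W_68f289_h58

open Pool.Agent.W_MP_68f289_gt Pool.Agent.W_68f289_h35 Pool.Agent.W_68f289_h51

variable {n : ℕ} {K K' : Set (E n)} {H : ℕ → ℝ → E n → ℝ} {ψ : ℕ → ℝ → E n → E n}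
  {Φ : Icc (0 : ℝ) 1 → (E n ≃ₜ E n)}

/-- affine images of Hamiltonian isotopies -/
lemma HIso_affine {H : ℝ → E n → ℝ} {ψ : ℝ → E n → E n} (h : HIso n H ψ) (hK : IsCompact K)
    (h0 : ∀ t, ∀ x, x ∉ K → H t x = 0) (c : E n) {ρ : ℝ} (hρ : ρ ≠ 0)
    (hB : ∀ x ∈ K, c + ρ • x ∈ Bl n) :
    HIso n (fun t x => ρ ^ 2 * H t (ρ⁻¹ • (x - c))) (fun t x => c + ρ • ψ t (ρ⁻¹ • (x - c))) := by
  refine ⟨?_, ?_, ?_, ?_⟩
  · exact contDiff_const.mul (h.smooth.comp (contDiff_fst.prodMk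
      ((contDiff_snd.sub contDiff_const).const_smul ρ⁻¹)))
  · refine ⟨aff c ρ hρ '' K, hK.image (aff c ρ hρ).continuous, ?_, fun t x hx => ?_⟩
    · rintro _ ⟨x, hx, rfl⟩
      exact hB x hx
    · rw [h0, mul_zero]
      intro hx'
      exact hx ⟨_, hx', by rw [aff_apply, smul_inv_smul₀ hρ, add_sub_cancel]⟩
  · intro x
    rw [h.zero, smul_inv_smul₀ hρ, add_sub_cancel]
  · intro t x
    rw [XH_aff (h.smooth_t t) c ρ hρ, add_sub_cancel_left, inv_smul_smul₀ hρ]
    exact ((h.der t (ρ⁻¹ • (x - c))).const_smul ρ).const_add c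

lemma hofer_affine {H : ℝ → E n → ℝ} (hb : ∀ t, Bd (H t)) (c : E n) {ρ : ℝ} (hρ : ρ ≠ 0) :
    hofer (fun t x => ρ ^ 2 * H t (ρ⁻¹ • (x - c))) = ρ ^ 2 * hofer H := by
  have hsurj : Function.Surjective fun x : E n => ρ⁻¹ • (x - c) := by
    intro y
    refine ⟨c + ρ • y, ?_⟩
    change ρ⁻¹ • (c + ρ • y - c) = y
    rw [add_sub_cancel_left, inv_smul_smul₀ hρ]
  have h1 := hofer_const_mul (H := fun t x => H t (ρ⁻¹ • (x - c))) (fun t => (hb t).comp _) (ρ ^ 2)
  have h2 := hofer_comp H (g := fun _ x => ρ⁻¹ • (x - c)) (fun _ => hsurj)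
  rw [h2, abs_of_nonneg (sq_nonneg ρ)] at h1
  exact h1

lemma aff_conj_apply (c : E n) {ρ : ℝ} (hρ : ρ ≠ 0) (g : E n ≃ₜ E n) (x : E n) :
    (aff c ρ hρ * g * (aff c ρ hρ)⁻¹) x = c + ρ • g (ρ⁻¹ • (x - c)) := by
  change c + ρ • g ((aff c ρ hρ)⁻¹ x) = _
  rw [aff_inv_apply]

/-- affine images of topological Hamiltonian paths -/
theorem TPath_affine (h : TPath n K H ψ Φ) (c : E n) {ρ : ℝ} (hρ : ρ ≠ 0)
    (hB : ∀ x ∈ K, c + ρ • x ∈ Bl n) :
    TPath n ((fun x => c + ρ • x) '' K) (fun k t x => ρ ^ 2 * H k t (ρ⁻¹ • (x - c)))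
      (fun k t x => c + ρ • ψ k t (ρ⁻¹ • (x - c)))
      (fun t => aff c ρ hρ * Φ t * (aff c ρ hρ)⁻¹) := by
  refine ⟨?_, ?_, ?_, ?_, ?_, ?_⟩
  · exact h.comp.image (by fun_prop)
  · rintro _ ⟨x, hx, rfl⟩
    exact hB x hx
  · exact fun k => HIso_affine (h.iso k) h.comp (h.supp k) c hρ hB
  · intro k t x hx
    have hx' : ρ⁻¹ • (x - c) ∉ K := fun hK => hx ⟨_, hK, by
      change c + ρ • (ρ⁻¹ • (x - c)) = x
      rw [smul_inv_smul₀ hρ, add_sub_cancel]⟩
    change ρ ^ 2 * H k t (ρ⁻¹ • (x - c)) = 0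
    rw [h.supp k t _ hx', mul_zero]
  · intro ε hε
    have hρ2 : 0 < ρ ^ 2 := by positivity
    obtain ⟨N, hN⟩ := h.cauchy (ε / ρ ^ 2) (by positivity)
    refine ⟨N, fun j k hj hk => ?_⟩
    have hb : ∀ t, Bd (fun x => H j t x - H k t x) := fun t =>
      (bd_of_supp (h.iso j).smooth.continuous h.comp (h.supp j) t).sub
        (bd_of_supp (h.iso k).smooth.continuous h.comp (h.supp k) t)
    have e := hofer_affine (H := fun t x => H j t x - H k t x) hb c hρ
    have e2 : (fun (t : ℝ) (x : E n) => ρ ^ 2 * H j t (ρ⁻¹ • (x - c)) -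
        ρ ^ 2 * H k t (ρ⁻¹ • (x - c))) =
        fun t x => ρ ^ 2 * (H j t (ρ⁻¹ • (x - c)) - H k t (ρ⁻¹ • (x - c))) := by
      funext t x
      ring
    change hofer (fun (t : ℝ) (x : E n) => ρ ^ 2 * H j t (ρ⁻¹ • (x - c)) -
      ρ ^ 2 * H k t (ρ⁻¹ • (x - c))) < ε
    rw [e2]
    refine (le_of_eq e).trans_lt ?_
    have := hN j k hj hk
    rw [lt_div_iff₀ hρ2] at this
    linarith
  · intro ε hε
    have hρ1 : 0 < |ρ| := abs_pos.2 hρ
    obtain ⟨N, hN⟩ := h.conv (ε / |ρ|) (by positivity)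
    refine ⟨N, fun k hk t x => ?_⟩
    rw [aff_conj_apply, dist_add_left, dist_smul₀, Real.norm_eq_abs]
    have := hN k hk t (ρ⁻¹ • (x - c))
    rw [lt_div_iff₀ hρ1] at this
    linarith

/-- conjugation with explicit Hamiltonians -/
theorem TPath_conj (h : TPath n K H ψ Φ) {g : E n ≃ₜ E n} {K₀ : Set (E n)} (hK₀ : IsCompact K₀)
    (hK₀B : K₀ ⊆ Bl n) (hgoff : ∀ x, x ∉ K₀ → g x = x) {u : ℕ → (E n ≃ₜ E n)}
    (hu : ∀ k, IsHam n (u k)) (huK : ∀ k, ∀ x, x ∉ K₀ → u k x = x)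
    (hud : ∀ k : ℕ, ∀ x, dist (u k x) (g x) < 1 / ((k : ℝ) + 1))
    (hui : ∀ k : ℕ, ∀ x, dist ((u k).symm x) (g.symm x) < 1 / ((k : ℝ) + 1)) :
    TPath n (K ∪ K₀) (fun k t x => H k t ((u k).symm x)) (fun k t x => u k (ψ k t ((u k).symm x)))
      (fun t => g * Φ t * g⁻¹) := by
  have hsymm : ∀ k, ∀ x, x ∉ K₀ → (u k).symm x = x := by
    intro k x hx
    rw [Homeomorph.symm_apply_eq, huK k x hx]
  have hKc : IsCompact (K ∪ K₀) := h.comp.union hK₀
  have hHc : ∀ k, Continuous (Function.uncurry (H k)) := fun k => (h.iso k).smooth.continuous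
  have hHc' : ∀ j k, Continuous (Function.uncurry fun t x => H j t ((u k).symm x)) := by
    intro j k
    exact (hHc j).comp (continuous_fst.prodMk ((u k).symm.continuous.comp continuous_snd))
  have hHoff : ∀ j k, ∀ t, ∀ x, x ∉ K ∪ K₀ → H j t ((u k).symm x) = 0 := by
    intro j k t x hx
    rw [mem_union, not_or] at hx
    rw [hsymm k x hx.2, h.supp j t x hx.1]
  refine ⟨hKc, union_subset h.sub hK₀B, ?_, ?_, ?_, ?_⟩
  · intro k
    obtain ⟨h1, h2, h3, h4, -⟩ := isHam_props (hu k)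
    exact HIso.conj (h.iso k) h1 h2 h3 h4
  · intro k t x hx
    exact hHoff k k t x hx
  · intro ε hε
    obtain ⟨N₁, hN₁⟩ := h.cauchy (ε / 4) (by positivity)
    obtain ⟨δ, hδ, hunif⟩ := TqE_unif (hHc N₁) h.comp (h.supp N₁) (ε := ε / 16) (by positivity)
    obtain ⟨N₂, hN₂⟩ := exists_nat_gt (2 / δ)
    refine ⟨max N₁ N₂, fun k l hk hl => ?_⟩
    have hk1 : N₁ ≤ k := (le_max_left _ _).trans hk
    have hl1 : N₁ ≤ l := (le_max_left _ _).trans hl
    have hsmall : ∀ m : ℕ, max N₁ N₂ ≤ m → 1 / ((m : ℝ) + 1) < δ / 2 := by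
      intro m hm
      have hm2 : (N₂ : ℝ) ≤ m := by exact_mod_cast (le_max_right _ _).trans hm
      have h1 : 2 / δ < (m : ℝ) + 1 := by linarith
      rw [div_lt_iff₀ hδ] at h1
      rw [div_lt_iff₀ (by positivity)]
      linarith
    have hcl : ∀ x, dist ((u k).symm x) ((u l).symm x) < δ := by
      intro x
      have h1 := (hui k x).trans (hsmall k hk)
      have h2 := (hui l x).trans (hsmall l hl)
      have h3 := dist_triangle_right ((u k).symm x) ((u l).symm x) (g.symm x)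
      linarith
    -- the three parts
    set A : ℝ → E n → ℝ := fun t x => H k t ((u k).symm x) - H N₁ t ((u k).symm x) with hA
    set B : ℝ → E n → ℝ := fun t x => H N₁ t ((u k).symm x) - H N₁ t ((u l).symm x) with hB
    set D : ℝ → E n → ℝ := fun t x => H l t ((u l).symm x) - H N₁ t ((u l).symm x) with hD
    have hAc : Continuous (Function.uncurry A) := (hHc' k k).sub (hHc' N₁ k)
    have hBc : Continuous (Function.uncurry B) := (hHc' N₁ k).sub (hHc' N₁ l)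
    have hDc : Continuous (Function.uncurry D) := (hHc' l l).sub (hHc' N₁ l)
    have hAo : ∀ t, ∀ x, x ∉ K ∪ K₀ → A t x = 0 := by
      intro t x hx
      change H k t ((u k).symm x) - H N₁ t ((u k).symm x) = 0
      rw [hHoff k k t x hx, hHoff N₁ k t x hx, sub_zero]
    have hBo : ∀ t, ∀ x, x ∉ K ∪ K₀ → B t x = 0 := by
      intro t x hx
      change H N₁ t ((u k).symm x) - H N₁ t ((u l).symm x) = 0
      rw [hHoff N₁ k t x hx, hHoff N₁ l t x hx, sub_zero]
    have hDo : ∀ t, ∀ x, x ∉ K ∪ K₀ → D t x = 0 := by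
      intro t x hx
      change H l t ((u l).symm x) - H N₁ t ((u l).symm x) = 0
      rw [hHoff l l t x hx, hHoff N₁ l t x hx, sub_zero]
    have hABc : Continuous (Function.uncurry fun t x => A t x + B t x) := hAc.add hBc
    have hABo : ∀ t, ∀ x, x ∉ K ∪ K₀ → A t x + B t x = 0 := by
      intro t x hx
      rw [hAo t x hx, hBo t x hx, add_zero]
    have hAle : W_MP_68f289_gt.hofer A < ε / 4 := by
      have h1 := hofer_comp (fun t x => H k t x - H N₁ t x) (g := fun _ => (u k).symm)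
        (fun _ => (u k).symm.surjective)
      have h2 := hN₁ k N₁ hk1 le_rfl
      rw [← h1] at h2
      exact h2
    have hDle : W_MP_68f289_gt.hofer D < ε / 4 := by
      have h1 := hofer_comp (fun t x => H l t x - H N₁ t x) (g := fun _ => (u l).symm)
        (fun _ => (u l).symm.surjective)
      have h2 := hN₁ l N₁ hl1 le_rfl
      rw [← h1] at h2
      exact h2
    have hBle : W_MP_68f289_gt.hofer B ≤ 2 * (ε / 16) :=
      hofer_le_of_abs_le hBc hKc hBo fun t ht x => (hunif t ht _ _ (hcl x)).le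
    have hsum : (fun t x => H k t ((u k).symm x) - H l t ((u l).symm x)) =
        fun t x => (A t x + B t x) - D t x := by
      funext t x
      simp only [hA, hB, hD]
      ring
    have h5 := hofer_sub_le hABc hDc hKc hABo hDo
    have h6 := hofer_add_le hAc hBc hKc hAo hBo
    change W_MP_68f289_gt.hofer (fun t x => H k t ((u k).symm x) - H l t ((u l).symm x)) < ε
    rw [hsum]
    linarith
  · intro ε hε
    obtain ⟨δ₁, hδ₁, hgu⟩ := W_MP_68f289_gt.unif g.continuous hK₀ hgoff (half_pos hε)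
    obtain ⟨δ₂, hδ₂, hΦu⟩ := h.unif (half_pos hδ₁)
    obtain ⟨N₁, hN₁⟩ := h.conv (δ₁ / 2) (half_pos hδ₁)
    obtain ⟨N₂, hN₂⟩ := exists_nat_gt (2 / ε)
    obtain ⟨N₃, hN₃⟩ := exists_nat_gt (1 / δ₂)
    refine ⟨max N₁ (max N₂ N₃), fun k hk t x => ?_⟩
    have hk1 : N₁ ≤ k := (le_max_left _ _).trans hk
    have hk2 : (N₂ : ℝ) ≤ k := by
      exact_mod_cast (le_max_left _ _).trans ((le_max_right _ _).trans hk)
    have hk3 : (N₃ : ℝ) ≤ k := by
      exact_mod_cast (le_max_right _ _).trans ((le_max_right _ _).trans hk)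
    have hs1 : 1 / ((k : ℝ) + 1) < ε / 2 := by
      have h1 : 2 / ε < (k : ℝ) + 1 := by linarith
      rw [div_lt_iff₀ hε] at h1
      rw [div_lt_iff₀ (by positivity)]
      linarith
    have hs2 : 1 / ((k : ℝ) + 1) < δ₂ := by
      have h1 : 1 / δ₂ < (k : ℝ) + 1 := by linarith
      rw [div_lt_iff₀ hδ₂] at h1
      rw [div_lt_iff₀ (by positivity)]
      linarith
    have hab : dist (ψ k t ((u k).symm x)) (Φ t (g.symm x)) < δ₁ := by
      have h1 := hN₁ k hk1 t ((u k).symm x)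
      have h2 := hΦu t t (by rw [sub_self, abs_zero]; exact hδ₂) ((u k).symm x) (g.symm x)
        ((hui k x).trans hs2)
      have h3 := dist_triangle (ψ k t ((u k).symm x)) (Φ t ((u k).symm x)) (Φ t (g.symm x))
      linarith
    have h1 := hgu _ _ hab
    have h2 := (hud k (ψ k t ((u k).symm x))).trans hs1
    have h3 := dist_triangle (u k (ψ k t ((u k).symm x))) (g (ψ k t ((u k).symm x)))
      (g (Φ t (g.symm x)))
    change dist (u k (ψ k t ((u k).symm x))) (g (Φ t (g.symm x))) < ε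
    linarith

/-- changing the support -/
lemma TPath_supp (h : TPath n K H ψ Φ) (hc : IsCompact K') (hB : K' ⊆ Bl n) {m : ℕ}
    (hs : ∀ k, m ≤ k → ∀ t x, x ∉ K' → H k t x = 0) :
    TPath n K' (fun k => H (k + m)) (fun k => ψ (k + m)) Φ := by
  refine ⟨hc, hB, fun k => h.iso _, fun k t x hx => hs _ (Nat.le_add_left m k) t x hx, ?_, ?_⟩
  · intro ε hε
    obtain ⟨N, hN⟩ := h.cauchy ε hε
    exact ⟨N, fun j k hj hk => hN _ _ (by omega) (by omega)⟩
  · intro ε hε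
    obtain ⟨N, hN⟩ := h.conv ε hε
    exact ⟨N, fun k hk t x => hN _ (by omega) t x⟩

end Pool.Agent.W_68f289_h58
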